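import Pool.Agent.H660R2.NX.UnivSet

/-!
# The diagonal language: definitions and combinatorics
-/

namespace Pool.Agent.W60.SE

open Pool.Agent.NPC Pool.Agent.H660R2.NX

/-- Length of the longest initial segment of `0, ..., n - 1` on which `P` is true. -/
def lu (n : ℕ) (P : ℕ → Bool) : ℕ :=
  ((List.range n).filter (fun i => (List.range (i + 1)).all P)).length

theorem lu_spec (n : ℕ) (P : ℕ → Bool) :
    lu n P ≤ n ∧ (∀ i < lu n P, P i = true) ∧ (lu n P < n → P (lu n P) = false) := by
  classical
  have hex : ∃ m, m = n ∨ P m = false := ⟨n, Or.inl rfl⟩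
  set m := Nat.find hex with hm
  have hmn : m ≤ n := Nat.find_min' hex (Or.inl rfl)
  have hlt : ∀ i < m, P i = true := by
    intro i hi
    have := Nat.find_min hex hi
    push Not at this
    simpa using this.2
  have key : lu n P = m := by
    unfold lu
    have h1 : (List.range n).filter (fun i => (List.range (i + 1)).all P) =
        (List.range n).filter (fun i => decide (i < m)) := by
      apply List.filter_congr
      intro i hi
      rw [Bool.eq_iff_iff, List.all_eq_true, decide_eq_true_iff]
      constructor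
      · intro h
        by_contra hc
        push Not at hc
        rcases Nat.find_spec hex with h2 | h2
        · have := List.mem_range.1 hi
          omega
        · have h3 := h m (by rw [List.mem_range]; omega)
          rw [← hm] at h2
          rw [h2] at h3
          exact absurd h3 (by decide)
      · intro h j hj
        rw [List.mem_range] at hj
        exact hlt j (by omega)
    rw [h1]
    have : ∀ (n m : ℕ), m ≤ n → ((List.range n).filter (fun k => decide (k < m))).length = m := by
      intro n m h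
      have : (List.range n).filter (fun k => decide (k < m)) = List.range m := by
        obtain ⟨d, rfl⟩ := Nat.exists_eq_add_of_le h
        rw [List.range_add, List.filter_append]
        have h1 : (List.range m).filter (fun k => decide (k < m)) = List.range m := by
          rw [List.filter_eq_self]
          intro k hk
          simpa using hk
        have h2 : ((List.range d).map (fun x => m + x)).filter (fun k => decide (k < m)) = [] := by
          rw [List.filter_eq_nil_iff]
          intro k hk
          simp at hk ⊢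
          omega
        rw [h1, h2, List.append_nil]
      rw [this, List.length_range]
    exact this n m hmn
  rw [key]
  refine ⟨hmn, hlt, fun h => ?_⟩
  rcases Nat.find_spec hex with h2 | h2
  · rw [← hm] at h2; omega
  · rw [← hm] at h2; exact h2

/-- A criterion for the value of `lu`. -/
theorem lu_eq {n m : ℕ} {P : ℕ → Bool} (hm : m < n) (h1 : ∀ i < m, P i = true)
    (h2 : P m = false) : lu n P = m := by
  obtain ⟨h3, h4, h5⟩ := lu_spec n P
  rcases lt_trichotomy (lu n P) m with h | h | h
  · have := h5 (by omega)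
    rw [h1 _ h] at this
    exact absurd this (by decide)
  · exact h
  · have := h4 m h
    rw [h2] at this
    exact absurd this (by decide)

theorem le_lu {n m : ℕ} {P : ℕ → Bool} (hm : m ≤ n) (h1 : ∀ i < m, P i = true) :
    m ≤ lu n P := by
  obtain ⟨h3, h4, h5⟩ := lu_spec n P
  by_contra h
  push Not at h
  have := h5 (by omega)
  rw [h1 _ h] at this
  exact absurd this (by decide)

/-- Iterated integer square roots: the integer part of the root of order `2 ^ i`. -/
def mu (i n : ℕ) : ℕ := Nat.sqrt^[i] n

theorem mu_succ (i n : ℕ) : mu (i + 1) n = Nat.sqrt (mu i n) := by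
  unfold mu
  rw [Function.iterate_succ_apply']

theorem mu_le_self (i n : ℕ) : mu i n ≤ n := by
  induction i with
  | zero => exact le_rfl
  | succ i ih => rw [mu_succ]; exact (Nat.sqrt_le_self _).trans ih

theorem mu_anti {i j : ℕ} (h : i ≤ j) (n : ℕ) : mu j n ≤ mu i n := by
  induction h with
  | refl => exact le_rfl
  | step _ ih => rw [mu_succ]; exact (Nat.sqrt_le_self _).trans ih

theorem mu_pow_le (i n : ℕ) : (mu i n) ^ (2 ^ i) ≤ n := by
  induction i with
  | zero => simp [mu]
  | succ i ih =>
    rw [mu_succ, pow_succ, mul_comm, pow_mul]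
    exact (Nat.pow_le_pow_left (Nat.sqrt_le' _) _).trans ih

theorem lt_mu_succ_pow (i n : ℕ) : n < (mu i n + 1) ^ (2 ^ i) := by
  induction i with
  | zero => simp [mu]
  | succ i ih =>
    rw [mu_succ, pow_succ, mul_comm, pow_mul]
    refine ih.trans_le (Nat.pow_le_pow_left ?_ _)
    have := Nat.lt_succ_sqrt' (mu i n)
    exact this

section

variable (s : ℕ → ℕ → ℕ) (c : Nat.Partrec.Code) (D : ℕ → Code × ℕ)

/-- The answer of the candidate number `k` on `1 ^ l`, with the time allowed at stage `i` (and at
most `n`). -/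
def outN (n i k l : ℕ) : Bool :=
  decide (U (D k).1 (List.replicate l true) (min n (2 ^ s (i + 1) l)) = some [true])

/-- The answer of the candidate number `k` on `1 ^ l`, with the time allowed at stage `i`. -/
def out (i k l : ℕ) : Bool :=
  decide (U (D k).1 (List.replicate l true) (2 ^ s (i + 1) l) = some [true])

/-- The report `r` shows a difference with the table `t`. -/
def viol (t : List Bool) (r : ℕ) : Bool :=
  decide (r = 1) || t.zipIdx.any (fun p => decide (r = 2 * p.2 + 2 + cond p.1 0 1))

/-- Requirement `i` is seen to be satisfied. -/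
def seen (n : ℕ) (t : List Bool) (i : ℕ) : Bool :=
  (List.range n).any (fun m => (Nat.Partrec.Code.evaln n c (Nat.pair i m)).any (viol t))

/-- The candidate `k` is refuted at stage `i`. -/
def bad (n : ℕ) (t : List Bool) (i k : ℕ) : Bool :=
  t.zipIdx.any (fun p => decide ((D k).2 ≤ p.2) && (outN s D n i k p.2 ^^ p.1))

/-- The current stage. -/
def stage (n : ℕ) (t : List Bool) : ℕ := lu n (seen c n t)

/-- The current candidate. -/
def cand (n : ℕ) (t : List Bool) (i : ℕ) : ℕ := lu n (bad s D n t i)

/-- The next value. -/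
def beta (n : ℕ) (t : List Bool) : Bool :=
  !(out s D (stage c n t) (cand s D n t (stage c n t)) n)

/-- The table of the first values. -/
def tb : ℕ → List Bool
  | 0 => []
  | l + 1 => tb l ++ [beta s c D l ((tb l).take (Nat.log 2 l))]

/-- The values of the diagonal language on `1 ^ n`. -/
def bv (n : ℕ) : Bool := beta s c D n ((tb s c D n).take (Nat.log 2 n))

theorem tb_eq (n : ℕ) : tb s c D n = (List.range n).map (bv s c D) := by
  induction n with
  | zero => rfl
  | succ n ih =>
    rw [List.range_succ, List.map_append, ← ih]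
    rfl

theorem log_le (n : ℕ) : Nat.log 2 n ≤ n := Nat.log_le_self 2 n

/-- The part of the history that is looked at. -/
def hist (n : ℕ) : List Bool := (List.range (Nat.log 2 n)).map (bv s c D)

theorem hist_eq_tb (n : ℕ) : hist s c D n = tb s c D (Nat.log 2 n) := by
  rw [tb_eq]; rfl

theorem bv_eq (n : ℕ) : bv s c D n = beta s c D n (hist s c D n) := by
  unfold bv
  rw [tb_eq, ← List.map_take, List.take_range, min_eq_left (log_le n)]
  rfl

theorem any_zipIdx_map_range (m : ℕ) (b : ℕ → Bool) (P : Bool × ℕ → Bool) :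
    ((List.range m).map b).zipIdx.any P = true ↔ ∃ l < m, P (b l, l) = true := by
  rw [List.any_eq_true]
  constructor
  · rintro ⟨⟨x, l⟩, hx, hP⟩
    rw [List.mem_zipIdx_iff_getElem?] at hx
    rw [List.getElem?_map] at hx
    by_cases hl : l < m
    · rw [List.getElem?_range hl] at hx
      simp only [Option.map_some, Option.some.injEq] at hx
      subst hx
      exact ⟨l, hl, hP⟩
    · rw [List.getElem?_eq_none (by simpa using hl)] at hx
      simp at hx
  · rintro ⟨l, hl, hP⟩
    refine ⟨(b l, l), ?_, hP⟩
    rw [List.mem_zipIdx_iff_getElem?, List.getElem?_map, List.getElem?_range hl]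
    rfl

variable {s} in
theorem outN_eq (hs : ∀ i n, s i n ≤ n) {n i k l : ℕ} (h : 2 ^ l ≤ n) :
    outN s D n i k l = out s D i k l := by
  unfold outN out
  rw [min_eq_right]
  exact (Nat.pow_le_pow_right (by norm_num) (hs _ _)).trans h

theorem two_pow_le_of_lt_log {n l : ℕ} (h : l < Nat.log 2 n) : 2 ^ l ≤ n := by
  have h0 : n ≠ 0 := by
    rintro rfl
    simp at h
  exact (Nat.pow_le_pow_right (by norm_num) h.le).trans (Nat.pow_log_le_self 2 h0)

theorem viol_hist (n r : ℕ) : viol (hist s c D n) r = true ↔
    r = 1 ∨ ∃ l < Nat.log 2 n, r = 2 * l + 2 + cond (bv s c D l) 0 1 := by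
  unfold viol hist
  rw [Bool.or_eq_true, decide_eq_true_iff, any_zipIdx_map_range]
  simp only [decide_eq_true_iff]

theorem bad_hist (hs : ∀ i n, s i n ≤ n) (n i k : ℕ) : bad s D n (hist s c D n) i k = true ↔
    ∃ l < Nat.log 2 n, (D k).2 ≤ l ∧ out s D i k l ≠ bv s c D l := by
  unfold bad hist
  rw [any_zipIdx_map_range]
  constructor
  · rintro ⟨l, hl, h⟩
    simp only [Bool.and_eq_true, decide_eq_true_iff] at h
    rw [outN_eq D hs (two_pow_le_of_lt_log hl)] at h
    refine ⟨l, hl, h.1, ?_⟩
    intro h2
    rw [h2] at h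
    simp at h
  · rintro ⟨l, hl, h1, h2⟩
    refine ⟨l, hl, ?_⟩
    simp only [Bool.and_eq_true, decide_eq_true_iff]
    rw [outN_eq D hs (two_pow_le_of_lt_log hl)]
    refine ⟨h1, ?_⟩
    cases h3 : out s D i k l <;> cases h4 : bv s c D l <;> simp_all

/-- The report `r` shows a real difference. -/
def Viol (r : ℕ) : Prop := r = 1 ∨ ∃ l, r = 2 * l + 2 + cond (bv s c D l) 0 1

variable {s c D} {r : ℕ → ℕ} (hr : ∀ z, r z ∈ Nat.Partrec.Code.eval c z)

include hr

theorem evaln_eq {n z v : ℕ} (h : Nat.Partrec.Code.evaln n c z = some v) : v = r z := by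
  have h1 := Nat.Partrec.Code.evaln_sound (Option.mem_def.2 h)
  exact Part.mem_unique h1 (hr z)

/-- Seen violations are real. -/
theorem seen_sound {n i : ℕ} (h : seen c n (hist s c D n) i = true) :
    ∃ m, Viol s c D (r (Nat.pair i m)) := by
  unfold seen at h
  rw [List.any_eq_true] at h
  obtain ⟨m, _, h⟩ := h
  rw [Option.any_eq_true] at h
  obtain ⟨v, h1, h2⟩ := h
  rw [evaln_eq hr h1, viol_hist] at h2
  refine ⟨m, ?_⟩
  rcases h2 with h2 | ⟨l, _, h2⟩
  · exact Or.inl h2
  · exact Or.inr ⟨l, h2⟩

/-- Real violations are seen eventually. -/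
theorem seen_complete {i m : ℕ} (h : Viol s c D (r (Nat.pair i m))) :
    ∃ N, ∀ n ≥ N, seen c n (hist s c D n) i = true := by
  obtain ⟨k, hk⟩ := Nat.Partrec.Code.evaln_complete.1 (hr (Nat.pair i m))
  rw [Option.mem_def] at hk
  obtain ⟨L, hL⟩ : ∃ L, ∀ n, L < Nat.log 2 n → viol (hist s c D n) (r (Nat.pair i m)) = true := by
    rcases h with h | ⟨l, h⟩
    · exact ⟨0, fun n _ => (viol_hist s c D n _).2 (Or.inl h)⟩
    · exact ⟨l, fun n hn => (viol_hist s c D n _).2 (Or.inr ⟨l, hn, h⟩)⟩
  refine ⟨k + m + 1 + 2 ^ (L + 1), fun n hn => ?_⟩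
  have hp : 0 < 2 ^ (L + 1) := by positivity
  unfold seen
  rw [List.any_eq_true]
  refine ⟨m, by rw [List.mem_range]; omega, ?_⟩
  rw [Nat.Partrec.Code.evaln_mono (show k ≤ n by omega) hk, Option.any_some]
  apply hL
  have h1 : Nat.log 2 (2 ^ (L + 1)) ≤ Nat.log 2 n := Nat.log_mono_right (by omega)
  rw [Nat.log_pow (by norm_num)] at h1
  omega

/-- At a requirement which is never met, all candidates fail. -/
theorem diag (hs : ∀ i n, s i n ≤ n) {i : ℕ} (h1 : ∀ j < i, ∃ m, Viol s c D (r (Nat.pair j m)))
    (h2 : ∀ m, ¬ Viol s c D (r (Nat.pair i m))) (k : ℕ) :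
    ∃ l, (D k).2 ≤ l ∧ out s D i k l ≠ bv s c D l := by
  classical
  by_contra hk
  -- the first candidate which is never refuted
  have hex : ∃ k, ¬ ∃ l, (D k).2 ≤ l ∧ out s D i k l ≠ bv s c D l := ⟨k, hk⟩
  set k0 := Nat.find hex with hk0
  have hk1 : ¬ ∃ l, (D k0).2 ≤ l ∧ out s D i k0 l ≠ bv s c D l := Nat.find_spec hex
  have hk2 : ∀ k < k0, ∃ l, (D k).2 ≤ l ∧ out s D i k l ≠ bv s c D l := by
    intro k hk
    have := Nat.find_min hex hk
    push Not at this
    obtain ⟨l, h1, h2⟩ := this
    exact ⟨l, h1, h2⟩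
  -- bounds
  have hN1 : ∃ N, ∀ n ≥ N, ∀ j < i, seen c n (hist s c D n) j = true := by
    choose m hm using h1
    choose N hN using fun j (hj : j < i) => seen_complete hr (hm j hj)
    refine ⟨∑ j ∈ Finset.range i, (if hj : j < i then N j hj else 0), fun n hn j hj => ?_⟩
    apply hN j hj
    have h3 : (if hj : j < i then N j hj else 0) ≤
        ∑ j ∈ Finset.range i, (if hj : j < i then N j hj else 0) :=
      Finset.single_le_sum (f := fun j => if hj : j < i then N j hj else 0)
        (fun _ _ => Nat.zero_le _) (Finset.mem_range.2 hj)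
    rw [dif_pos hj] at h3
    omega
  have hN2 : ∃ L, ∀ k < k0, ∃ l < L, (D k).2 ≤ l ∧ out s D i k l ≠ bv s c D l := by
    choose l hl using hk2
    refine ⟨∑ k ∈ Finset.range k0, (if hk : k < k0 then l k hk + 1 else 0), fun k hk => ?_⟩
    refine ⟨l k hk, ?_, hl k hk⟩
    have h3 : (if hk : k < k0 then l k hk + 1 else 0) ≤
        ∑ k ∈ Finset.range k0, (if hk : k < k0 then l k hk + 1 else 0) :=
      Finset.single_le_sum (f := fun k => if hk : k < k0 then l k hk + 1 else 0)
        (fun _ _ => Nat.zero_le _) (Finset.mem_range.2 hk)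
    rw [dif_pos hk] at h3
    omega
  obtain ⟨N1, hN1⟩ := hN1
  obtain ⟨L, hL⟩ := hN2
  have hp : 0 < 2 ^ L := by positivity
  set n := N1 + i + k0 + (D k0).2 + 2 ^ L + 1 with hn
  have hlog : L ≤ Nat.log 2 n := by
    have h3 : Nat.log 2 (2 ^ L) ≤ Nat.log 2 n := Nat.log_mono_right (by omega)
    rwa [Nat.log_pow (by norm_num)] at h3
  have hst : stage c n (hist s c D n) = i := by
    unfold stage
    refine lu_eq (by omega) (hN1 n (by omega)) ?_
    rw [Bool.eq_false_iff]
    intro hs
    obtain ⟨m, hm⟩ := seen_sound hr hs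
    exact h2 m hm
  have hca : cand s D n (hist s c D n) i = k0 := by
    unfold cand
    refine lu_eq (by omega) (fun k hk => ?_) ?_
    · obtain ⟨l, hl1, hl2⟩ := hL k hk
      exact (bad_hist s c D hs n i k).2 ⟨l, by omega, hl2⟩
    · rw [Bool.eq_false_iff]
      intro hb
      obtain ⟨l, _, hl⟩ := (bad_hist s c D hs n i k0).1 hb
      exact hk1 ⟨l, hl⟩
  have hb : bv s c D n = !(out s D i k0 n) := by
    rw [bv_eq]
    unfold beta
    rw [hst, hca]
  apply hk1
  refine ⟨n, by omega, ?_⟩
  rw [hb]
  cases out s D i k0 n <;> simp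

/-- If all requirements are met then the stages tend to infinity. -/
theorem stage_tendsto (h : ∀ i, ∃ m, Viol s c D (r (Nat.pair i m))) (I : ℕ) :
    ∃ N, ∀ n ≥ N, I ≤ stage c n (hist s c D n) := by
  choose m hm using h
  choose N hN using fun j => seen_complete hr (hm j)
  refine ⟨I + ∑ j ∈ Finset.range I, N j, fun n hn => ?_⟩
  refine le_lu (by omega) fun j hj => hN j n ?_
  have h3 : N j ≤ ∑ j ∈ Finset.range I, N j :=
    Finset.single_le_sum (f := fun j => N j) (fun _ _ => Nat.zero_le _) (Finset.mem_range.2 hj)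
  omega

end

end Pool.Agent.W60.SE
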