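import Pool.Agent.W60.SE.Defs
import Pool.Agent.W60.SE.Diag

/-!
# Elementary estimates
-/

namespace Pool.Agent.W60.SE

open Filter

theorem eval_le_pow (q : Polynomial ℕ) : ∃ A K : ℕ, ∀ m, q.eval m ≤ A * (m + 1) ^ K := by
  induction q using Polynomial.induction_on' with
  | add p q hp hq =>
    obtain ⟨A, K, h1⟩ := hp
    obtain ⟨B, L, h2⟩ := hq
    refine ⟨A + B, K + L, fun m => ?_⟩
    rw [Polynomial.eval_add, add_mul]
    have h3 : (m + 1) ^ K ≤ (m + 1) ^ (K + L) := Nat.pow_le_pow_right (by omega) (by omega)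
    have h4 : (m + 1) ^ L ≤ (m + 1) ^ (K + L) := Nat.pow_le_pow_right (by omega) (by omega)
    exact Nat.add_le_add ((h1 m).trans (Nat.mul_le_mul_left _ h3))
      ((h2 m).trans (Nat.mul_le_mul_left _ h4))
  | monomial k a =>
    refine ⟨a, k, fun m => ?_⟩
    rw [Polynomial.eval_monomial]
    exact Nat.mul_le_mul_left _ (Nat.pow_le_pow_left (by omega) _)

theorem lt_two_pow_log (n : ℕ) : n < 2 ^ (Nat.log 2 n + 1) := Nat.lt_pow_succ_log_self (by norm_num) n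

/-- The time of a candidate fits in the time allowed. -/
theorem time_fits {s : ℕ → ℕ → ℕ} (hs : Descending s) (i a C : ℕ) : ∃ N : ℕ, ∀ l ≥ N,
    a * (C * 2 ^ s (i + 2) l + l + 1) ≤ 2 ^ s (i + 1) l := by
  obtain ⟨N, hN⟩ := hs.gap (i + 1) (a + C + 2)
  refine ⟨N, fun l hl => ?_⟩
  have h1 := hN l hl
  set u := s (i + 1 + 1) l with hu
  have h2 : a ≤ 2 ^ a := Nat.lt_two_pow_self.le
  have h3 : C ≤ 2 ^ C := Nat.lt_two_pow_self.le
  have h4 := lt_two_pow_log l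
  set g := Nat.log 2 l with hg
  have h5 : C * 2 ^ u ≤ 2 ^ (C + u + g + 1) := by
    calc C * 2 ^ u ≤ 2 ^ C * 2 ^ u := Nat.mul_le_mul_right _ h3
      _ = 2 ^ (C + u) := by rw [pow_add]
      _ ≤ _ := Nat.pow_le_pow_right (by norm_num) (by omega)
  have h6 : l + 1 ≤ 2 ^ (C + u + g + 1) :=
    (Nat.succ_le_of_lt h4).trans (Nat.pow_le_pow_right (by norm_num) (by omega))
  calc a * (C * 2 ^ u + l + 1) ≤ 2 ^ a * (2 ^ (C + u + g + 1) + 2 ^ (C + u + g + 1)) :=
        Nat.mul_le_mul h2 (by omega)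
    _ = 2 ^ (a + C + u + g + 2) := by
        rw [show a + C + u + g + 2 = a + ((C + u + g + 1) + 1) by ring, pow_add 2 a, pow_succ]
        ring
    _ ≤ 2 ^ s (i + 1) l := by
        apply Nat.pow_le_pow_right (by norm_num)
        refine le_trans ?_ h1
        nlinarith [Nat.zero_le ((a + C + 1) * u), Nat.zero_le ((a + C + 1) * g)]

/-- The time of the diagonal language is small. -/
theorem time_small {s : ℕ → ℕ → ℕ} (hs : Descending s) (q : Polynomial ℕ) (M : ℕ → ℕ)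
    (hM : ∀ I, ∃ N, ∀ n ≥ N, M n ≤ s I n) (I : ℕ) :
    ∃ C : ℕ, ∀ n : ℕ, q.eval (n + 2 ^ M n) ≤ C * 2 ^ s I n := by
  obtain ⟨A, K, hAK⟩ := eval_le_pow q
  obtain ⟨N1, hN1⟩ := hM (I + 1)
  obtain ⟨N2, hN2⟩ := hs.gap I (A + 2 * K)
  have key : ∀ n ≥ N1 + N2, q.eval (n + 2 ^ M n) ≤ 2 ^ s I n := by
    intro n hn
    have h3 := hN2 n (by omega)
    have h4 := hN1 n (by omega)
    have h5 := lt_two_pow_log n
    set g := Nat.log 2 n with hg
    have h6 : n + 2 ^ M n + 1 ≤ 2 ^ (g + M n + 2) := by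
      have h7 : 2 ^ (g + 1) ≤ 2 ^ (g + M n + 1) := Nat.pow_le_pow_right (by norm_num) (by omega)
      have h8 : 2 ^ M n ≤ 2 ^ (g + M n + 1) := Nat.pow_le_pow_right (by norm_num) (by omega)
      have h9 : 2 ^ (g + M n + 2) = 2 ^ (g + M n + 1) + 2 ^ (g + M n + 1) := by
        rw [pow_succ]; ring
      omega
    calc q.eval (n + 2 ^ M n) ≤ A * (n + 2 ^ M n + 1) ^ K := hAK _
      _ ≤ 2 ^ A * (2 ^ (g + M n + 2)) ^ K :=
        Nat.mul_le_mul Nat.lt_two_pow_self.le (Nat.pow_le_pow_left h6 K)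
      _ = 2 ^ (A + (g + M n + 2) * K) := by rw [← pow_mul, pow_add]
      _ ≤ 2 ^ s I n := by
        apply Nat.pow_le_pow_right (by norm_num)
        refine le_trans ?_ h3
        have h10 : (A + 2 * K) * (M n + g + 1) ≤ (A + 2 * K) * (s (I + 1) n + g + 1) :=
          Nat.mul_le_mul_left _ (by omega)
        refine le_trans ?_ h10
        nlinarith [Nat.zero_le (A * M n), Nat.zero_le (A * g), Nat.zero_le (K * M n),
          Nat.zero_le (K * g)]
  refine ⟨1 + ∑ n ∈ Finset.range (N1 + N2), q.eval (n + 2 ^ M n), fun n => ?_⟩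
  have h10 : 1 ≤ 2 ^ s I n := Nat.one_le_two_pow
  by_cases hn : N1 + N2 ≤ n
  · calc q.eval (n + 2 ^ M n) ≤ 1 * 2 ^ s I n := by rw [one_mul]; exact key n hn
      _ ≤ _ := Nat.mul_le_mul_right _ (by omega)
  · have h11 : q.eval (n + 2 ^ M n) ≤
        ∑ n ∈ Finset.range (N1 + N2), q.eval (n + 2 ^ M n) :=
      Finset.single_le_sum (f := fun n => q.eval (n + 2 ^ M n))
        (fun _ _ => Nat.zero_le _) (Finset.mem_range.2 (by omega))
    calc q.eval (n + 2 ^ M n) ≤ (1 + ∑ n ∈ Finset.range (N1 + N2), q.eval (n + 2 ^ M n)) * 1 := by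
          omega
      _ ≤ _ := Nat.mul_le_mul_left _ h10

end Pool.Agent.W60.SE
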