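import Pool.Agent.W60.SE.Pres
import Pool.Agent.H656R2.AK.TQPoly

/-!
# Decidable languages, the classes of languages reducible to them, and `PSPACE`
-/

namespace Pool.Agent.W60.SE

open Turing Pool.Agent.NPC Pool.Agent.H660R2.NX Pool.Agent.H639R2.NTP

/-- A machine which halts on all inputs has some bound of time. -/
theorem inTime_of_TM2 {d : List Bool → Bool}
    (M : TM2Computable (id : List Bool → List Bool) (fun b : Bool => [b]) d) :
    Nonempty (TM2ComputableInTime (id : List Bool → List Bool) (id : List Bool → List Bool)
      (fun x => [d x])) := by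
  refine ⟨{ tm := M.tm
            inputAlphabet := M.inputAlphabet
            outputAlphabet := M.outputAlphabet
            time := fun n => ((wordsOf n).map (fun x => (M.outputsFun x).steps)).sum
            outputsFun := fun x => { toEvalsTo := M.outputsFun x, steps_le_m := ?_ } }⟩
  exact List.single_le_sum (fun _ _ => Nat.zero_le _) _
    (List.mem_map.2 ⟨x, (mem_wordsOf _ _).2 rfl, rfl⟩)

/-- The output of the program `e`. -/
def UG (e : Code) (z : List Bool) : List Bool :=
  (U e (unpair z).1 (unpair z).2.length).getD []

theorem polyTime_UG (e : Code) : PolyTime (UG e) := by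
  apply polyTime_of_poly'
  have h3 : UPoly (fun z : List Bool => (unpair z).2.length) :=
    UPoly.length (Poly.snd poly_unpair)
  have h4 := Poly.comp poly_U (Poly.pair (NPC.Poly.const (α := List Bool) e)
    (Poly.pair (Poly.fst poly_unpair) h3))
  simp only [List.length_replicate] at h4
  exact NPC.Poly.optGetD h4 (NPC.Poly.const [])

/-- A function computed by a machine is computable. -/
theorem computable_of_TM2 {d : List Bool → Bool}
    (M : TM2Computable (id : List Bool → List Bool) (fun b : Bool => [b]) d) : Computable d := by
  obtain ⟨h⟩ := inTime_of_TM2 M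
  obtain ⟨e, a, he⟩ := U_time h
  have hU : ∀ x t y, U e x t = some y → y = [d x] := by
    intro x t y hy
    have h1 := U_mono (le_max_left t (a * (h.time x.length + x.length + 1))) hy
    have h2 := he x _ (le_max_right t (a * (h.time x.length + x.length + 1)))
    rw [h1] at h2
    exact Option.some.inj h2
  have hG : Primrec₂ (fun (x : List Bool) (t : ℕ) => UG e (pairBits x (List.replicate t true))) :=
    (polyTime_primrec (polyTime_UG e)).comp (primrec_pairBits.comp Primrec.fst
      (primrec_replicate.comp Primrec.snd))
  have hGe : ∀ x t, UG e (pairBits x (List.replicate t true)) = (U e x t).getD [] := by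
    intro x t
    simp only [UG, unpair_pairBits, List.length_replicate]
  have h1 : Partrec₂ (fun (x : List Bool) (t : ℕ) =>
      (Part.some (!decide (UG e (pairBits x (List.replicate t true)) = [])) : Part Bool)) :=
    (Primrec.not.comp (Primrec.eq.decide.comp hG (Primrec.const []))).to_comp.partrec
  have h2 := Partrec.rfind h1
  have h3 : Computable₂ (fun (x : List Bool) (t : ℕ) =>
      decide (UG e (pairBits x (List.replicate t true)) = [true])) :=
    (Primrec.eq.decide.comp hG (Primrec.const [true])).to_comp
  refine (h2.map h3).of_eq_tot fun x => ?_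
  have h4 : ∃ t, U e x t = some [d x] := ⟨_, he x _ le_rfl⟩
  have h5 : (Nat.rfind (fun t => (Part.some
      (!decide (UG e (pairBits x (List.replicate t true)) = [])) : Part Bool))).Dom := by
    obtain ⟨t, ht⟩ := h4
    refine (Nat.rfind_dom' (p := fun t => (Part.some
      (!decide (UG e (pairBits x (List.replicate t true)) = [])) : Part Bool))).2 ?_
    refine ⟨t, ?_, fun _ => trivial⟩
    rw [Part.mem_some_iff, hGe, ht]
    simp
  rw [Part.mem_map_iff]
  refine ⟨_, Part.get_mem h5, ?_⟩
  have h6 := Nat.rfind_spec (Part.get_mem h5)
  rw [Part.mem_some_iff, hGe] at h6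
  rw [hGe]
  set t := (Nat.rfind (fun t => (Part.some
      (!decide (UG e (pairBits x (List.replicate t true)) = [])) : Part Bool))).get h5
  cases hy : U e x t with
  | none => rw [hy] at h6; simp at h6
  | some y =>
    have h7 := hU x t y hy
    rw [h7]
    cases d x <;> simp

/-- The universal function, on strings. -/
def UF (D : ℕ → Code × ℕ) (z : List Bool) : List Bool :=
  (U (D (unpair z).1.length).1 (unpair (unpair z).2).1 (unpair (unpair z).2).2.length).getD []

theorem polyTime_UF {D : ℕ → Code × ℕ} (hD1 : Poly (fun u : List Unit => (D u.length).1)) :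
    PolyTime (UF D) := by
  apply polyTime_of_poly'
  have h0 : UPoly (fun z : List Bool => (unpair z).1.length) := UPoly.length (Poly.fst poly_unpair)
  have h1 : Poly (fun z : List Bool => (D (unpair z).1.length).1) :=
    (Poly.comp hD1 h0).congr fun a => by rw [List.length_replicate]
  have h2 : Poly (fun z : List Bool => unpair (unpair z).2) :=
    Poly.comp poly_unpair (Poly.snd poly_unpair)
  have h3 : UPoly (fun z : List Bool => (unpair (unpair z).2).2.length) :=
    UPoly.length (Poly.snd h2)
  have h4 := Poly.comp poly_U (Poly.pair h1 (Poly.pair (Poly.fst h2) h3))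
  simp only [List.length_replicate] at h4
  exact NPC.Poly.optGetD h4 (NPC.Poly.const [])

/-- The value of the function with index `i`. -/
def val (D : ℕ → Code × ℕ) (i : ℕ) (z : List Bool) : List Bool :=
  (U (D (idx i).1).1 z (evp (idx i).2.2 z.length)).getD []

theorem primrec_val {D : ℕ → Code × ℕ} (hD1 : Poly (fun u : List Unit => (D u.length).1)) :
    Primrec₂ (val D) := by
  have hU : Primrec (UF D) := polyTime_primrec (polyTime_UF hD1)
  have hi : Primrec (fun q : ℕ × List Bool => idx q.1) := primrec_idx.comp Primrec.fst
  have ha : Primrec (fun q : ℕ × List Bool => List.replicate (idx q.1).1 true) :=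
    primrec_replicate.comp (Primrec.fst.comp hi)
  have hb : Primrec (fun q : ℕ × List Bool =>
      List.replicate (evp (idx q.1).2.2 q.2.length) true) :=
    primrec_replicate.comp (primrec_evp.comp (Primrec.snd.comp (Primrec.snd.comp hi))
      (Primrec.list_length.comp Primrec.snd))
  have hc : Primrec (fun q : ℕ × List Bool => pairBits (List.replicate (idx q.1).1 true)
      (pairBits q.2 (List.replicate (evp (idx q.1).2.2 q.2.length) true))) :=
    primrec_pairBits.comp ha (primrec_pairBits.comp Primrec.snd hb)
  refine (hU.comp hc).of_eq fun q => ?_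
  simp only [UF, val, unpair_pairBits, List.length_replicate]

/-- **The class of the languages reducible to a decidable language has a decidable
presentation.** -/
theorem reduces_presented {Q : Set (List Bool)} {d : List Bool → Bool} (hd : Computable d)
    (hQ : ∀ x, x ∈ Q ↔ d x = true) :
    ∃ f : ℕ → List Bool → Option Bool, Computable₂ f ∧ {L | Reduces L Q} = Presented f := by
  obtain ⟨D, hD1, _, hD3, _⟩ := exists_enum
  have hv : Primrec (fun p : ℕ × List Bool => val D p.1 p.2) := primrec_val hD1
  refine ⟨fun i x => some (d (val D i x)), Computable.option_some.comp (hd.comp hv.to_comp), ?_⟩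
  ext L
  constructor
  · rintro ⟨g, hg, hL⟩
    obtain ⟨e, q, he⟩ := U_polyTime hg
    obtain ⟨n, hn⟩ := hD3 e 0
    obtain ⟨l2, hl2⟩ := evp_of_poly q
    obtain ⟨i, hi⟩ : ∃ i, idx i = (n, [], l2) := ⟨_, idx_encode _⟩
    refine ⟨i, fun x => ?_⟩
    have h1 : val D i x = g x := by
      unfold val
      rw [hi]
      simp only
      rw [hn, hl2, he x, Option.getD_some]
    simp only [h1, Option.some.injEq]
    rw [hL x, hQ]
    simp
  · rintro ⟨i, hi⟩
    obtain ⟨q, hq⟩ := poly_of_evp (idx i).2.2
    refine ⟨fun x => val D i x, ?_, fun x => ?_⟩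
    · apply polyTime_of_poly'
      have h1 : UPoly (fun z : List Bool => q.eval z.length) :=
        UPoly.eval (UPoly.length Poly.id) q
      have h4 := Poly.comp poly_U (Poly.pair (NPC.Poly.const (α := List Bool) (D (idx i).1).1)
        (Poly.pair Poly.id h1))
      simp only [List.length_replicate] at h4
      exact (NPC.Poly.optGetD h4 (NPC.Poly.const [])).congr fun z => by
        unfold val
        rw [hq]
    · have h1 := hi x
      simp only [Option.some.injEq] at h1
      rw [hQ]
      constructor
      · exact h1.1
      · intro h2
        by_contra h3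
        rw [h1.2 h3] at h2
        exact absurd h2 (by simp)

open Pool.Agent.H623R2.PS (InPSPACE evq inPSPACE_of_evq)
open Pool.Agent.H656R2.AK (QF evc qbf_hard)

/-- The truth of a quantified boolean formula. -/
def QT (F : QF) : Prop := evq F.1 (fun v => evc v F.2) = true

theorem inPSPACE_iff (L : Set (List Bool)) : InPSPACE L ↔ Reduces L (lang QT) := by
  constructor
  · intro hL
    obtain ⟨f, hf, _, hf'⟩ := qbf_hard hL
    exact ⟨fun x => bits (f x), polyTime_bits hf, fun x => by rw [hf' x, bits_mem_lang]; rfl⟩
  · rintro ⟨g, hg, hL⟩
    have h1 : NPC.Poly (fun x : List Bool => unbits QF (g x)) :=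
      poly_unbits.comp (poly_of_polyTime hg)
    have h2 : NPC.Poly (fun x : List Bool =>
        (unbits QF (g x)).elim ([] : List Bool) (fun F => F.1)) :=
      NPC.Poly.optElim (h := fun _ F => F.1) h1 (NPC.Poly.const []) (by fun_prop)
    have h4 : NPC.Poly (fun q : (Option QF × List Bool) × QF => evc q.1.2 q.2.2) := by
      have h5 : NPC.Poly (fun q : (Option QF × List Bool) × QF => q.2.2.all fun c =>
          c.any fun l => decide (q.1.2.getD l.2 false = l.1)) := by
        fun_prop
      refine h5.congr fun q => ?_
      unfold evc
      simp only [beq_eq_decide]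
    have h3 : NPC.Poly (fun p : Option QF × List Bool =>
        p.1.elim false (fun F => evc p.2 F.2)) :=
      NPC.Poly.optElim (o := fun p : Option QF × List Bool => p.1)
        (h := fun (p : Option QF × List Bool) (F : QF) => evc p.2 F.2)
        (by fun_prop) (NPC.Poly.const false) h4
    refine inPSPACE_of_evq (init := fun x => unbits QF (g x)) h1 (qs := fun x =>
      (unbits QF (g x)).elim ([] : List Bool) (fun F => F.1)) h2
      (φ := fun o v => o.elim false (fun F => evc v F.2)) h3 fun x => ?_
    rw [hL x, mem_lang_iff]
    cases hx : unbits QF (g x) with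
    | none => simp [evq]
    | some F => simp [QT]

/-- `P` is the leaf class given by the first leaf. -/
theorem p_eq : {L | InP L} = LeafClass (fun l => l.head?) := by
  have hl : ∀ V k x, (leaves V k x).head? = some (decide (V (pairBits x []) = [true])) := by
    intro V k x
    unfold leaves wordsUpTo
    rw [List.range_succ_eq_map, List.flatMap_cons]
    simp [wordsOf]
  ext L
  constructor
  · rintro ⟨V, hV, h⟩
    refine ⟨fun z => V (unpair z).1, 0, ?_, fun x => ?_⟩
    · exact polyTime_of_poly' ((poly_of_polyTime hV).comp (Poly.fst poly_unpair))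
    · simp only [hl, unpair_pairBits, h]
      simp
  · rintro ⟨V, p, hV, h⟩
    refine ⟨fun x => V (pairBits x []), ?_, fun x => ?_⟩
    · exact polyTime_of_poly' ((poly_of_polyTime hV).comp (poly_pairBits NPC.Poly.id (NPC.Poly.const [])))
    · have h1 := h x
      simp only [hl, Option.some.injEq, decide_eq_true_eq, decide_eq_false_iff_not] at h1
      exact ⟨h1.1, fun h2 => by_contra fun h3 => h1.2 h3 h2⟩

/-- `PSPACE` has a decidable presentation. -/
theorem pspace_presented :
    ∃ f : ℕ → List Bool → Option Bool, Computable₂ f ∧ {L | InPSPACE L} = Presented f := by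
  obtain ⟨d, M, _, hd, _⟩ := (inPSPACE_iff (lang QT)).2 ⟨fun x => x, polyTime_id, fun x => Iff.rfl⟩
  have h1 : {L | InPSPACE L} = {L | Reduces L (lang QT)} := by
    ext L
    exact inPSPACE_iff L
  rw [h1]
  exact reduces_presented (computable_of_TM2 M) hd

end Pool.Agent.W60.SE
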