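import Pool.Agent.NPC.Defs

/-!
# Intersections of deterministic time classes, and classes with a decidable presentation
-/

namespace Pool.Agent.W60.SE

open Turing Pool.Agent.NPC

/-- `L` is decided by a Turing machine (in the sense of Mathlib) which on words of length `n` makes
at most `B n` steps. -/
def DecidedIn (B : ℕ → ℝ) (L : Set (List Bool)) : Prop :=
  ∃ (V : List Bool → List Bool)
    (h : TM2ComputableInTime (id : List Bool → List Bool) (id : List Bool → List Bool) V),
    (∀ n, (h.time n : ℝ) ≤ B n) ∧ ∀ x, x ∈ L ↔ V x = [true]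

/-- `SUBEXP`: the intersection of the classes `DTIME(2 ^ (n ^ ε))`, `ε > 0`.  The machine and the
constant may depend on `ε`. -/
def Subexp : Set (Set (List Bool)) :=
  {L | ∀ ε : ℝ, 0 < ε → ∃ C : ℝ, DecidedIn (fun n => C * 2 ^ ((n : ℝ) ^ ε)) L}

/-- The intersection of the classes `DTIME(2 ^ s i n)`, `i = 0, 1, ...`. -/
def DTimes (s : ℕ → ℕ → ℕ) : Set (Set (List Bool)) :=
  {L | ∀ i, ∃ C : ℝ, DecidedIn (fun n => C * 2 ^ s i n) L}

/-- A descending sequence of time bounds `2 ^ s i n ≤ 2 ^ n`, uniformly constructible (`s i n` is
computable in unary in polynomial time), such that every polynomial in `n * 2 ^ s (i + 1) n` is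
below `2 ^ s i n` for almost all `n`. -/
structure Descending (s : ℕ → ℕ → ℕ) : Prop where
  constructible : ∃ g : List Bool → List Bool, PolyTime g ∧ ∀ i n,
    g (pairBits (List.replicate i true) (List.replicate n true)) = List.replicate (s i n) true
  le : ∀ i n, s i n ≤ n
  anti : ∀ i n, s (i + 1) n ≤ s i n
  gap : ∀ i K, ∃ N, ∀ n ≥ N, K * (s (i + 1) n + Nat.log 2 n + 1) ≤ s i n

/-- The class presented by `f`: the languages `L` such that, for some `i`, the answers `f i x` are
right for all words `x`.  The indices `i` for which some answer is undefined present no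
language. -/
def Presented (f : ℕ → List Bool → Option Bool) : Set (Set (List Bool)) :=
  {L | ∃ i, ∀ x, (x ∈ L → f i x = some true) ∧ (x ∉ L → f i x = some false)}

end Pool.Agent.W60.SE
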