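import Pool.Agent.W60.SE.Sim

/-!
# Exponential padding
-/

namespace Pool.Agent.W60.SE

open Turing Pool.Agent.NPC Pool.Agent.H642R2.TMSim
open Function (update)

/-- The number of leading ones. -/
def lead : List Bool → ℕ
  | true :: z => lead z + 1
  | _ => 0

/-- The word without its leading ones. -/
def rest : List Bool → List Bool
  | true :: z => rest z
  | z => z

/-- Replacing the `m` leading ones by `2 ^ m` ones. -/
def Ex (z : List Bool) : List Bool := List.replicate (2 ^ lead z) true ++ rest z

theorem rest_length (z : List Bool) : (rest z).length ≤ z.length := by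
  induction z with
  | nil => simp [rest]
  | cons b z ih =>
    cases b
    · simp [rest]
    · simp only [rest, List.length_cons]; omega

/-- States with four stacks. -/
def s4 (a b c d : List Bool) : ℕ → List Bool := fun i =>
  match i with
  | 0 => a
  | 1 => b
  | 2 => c
  | 3 => d
  | _ => []

@[simp] theorem s4_0 (a b c d) : s4 a b c d 0 = a := rfl
@[simp] theorem s4_1 (a b c d) : s4 a b c d 1 = b := rfl
@[simp] theorem s4_2 (a b c d) : s4 a b c d 2 = c := rfl
@[simp] theorem s4_3 (a b c d) : s4 a b c d 3 = d := rfl

@[simp] theorem update_s4_0 (a b c d x) : update (s4 a b c d) 0 x = s4 x b c d := by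
  funext i
  match i with
  | 0 => simp
  | 1 => simp [Function.update_of_ne]
  | 2 => simp [Function.update_of_ne]
  | 3 => simp [Function.update_of_ne]
  | n + 4 => simp [Function.update_of_ne, s4]

@[simp] theorem update_s4_1 (a b c d x) : update (s4 a b c d) 1 x = s4 a x c d := by
  funext i
  match i with
  | 0 => simp [Function.update_of_ne]
  | 1 => simp
  | 2 => simp [Function.update_of_ne]
  | 3 => simp [Function.update_of_ne]
  | n + 4 => simp [Function.update_of_ne, s4]

@[simp] theorem update_s4_2 (a b c d x) : update (s4 a b c d) 2 x = s4 a b x d := by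
  funext i
  match i with
  | 0 => simp [Function.update_of_ne]
  | 1 => simp [Function.update_of_ne]
  | 2 => simp
  | 3 => simp [Function.update_of_ne]
  | n + 4 => simp [Function.update_of_ne, s4]

@[simp] theorem update_s4_3 (a b c d x) : update (s4 a b c d) 3 x = s4 a b c x := by
  funext i
  match i with
  | 0 => simp [Function.update_of_ne]
  | 1 => simp [Function.update_of_ne]
  | 2 => simp [Function.update_of_ne]
  | 3 => simp
  | n + 4 => simp [Function.update_of_ne, s4]

theorem inp_eq_s4 (a : List Bool) : (inp a : ℕ → List Bool) = s4 a [] [] [] := by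
  funext i
  match i with
  | 0 => simp [inp]
  | 1 => simp [inp]
  | 2 => simp [inp]
  | 3 => simp [inp]
  | n + 4 => simp [inp, s4]

/-- first half of the doubling -/
def dbl1 : Cmd ℕ := Cmd.loop 1 (Cmd.seq (Cmd.pop 1) (Cmd.seq (Cmd.push 2 true) (Cmd.push 2 true)))

theorem dbl1_runs (a d : List Bool) : ∀ k j : ℕ,
    Runs dbl1 (s4 a (List.replicate k true) (List.replicate j true) d)
      (s4 a [] (List.replicate (j + 2 * k) true) d) (4 * k + 1) := by
  intro k
  induction k with
  | zero =>
    intro j
    exact (Runs.loopNil (by simp)).conv rfl (by simp) (by simp)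
  | succ k ih =>
    intro j
    have h1 : Runs (Cmd.seq (Cmd.pop 1) (Cmd.seq (Cmd.push 2 true) (Cmd.push 2 true)))
        (s4 a (List.replicate (k + 1) true) (List.replicate j true) d)
        (s4 a (List.replicate k true) (List.replicate (j + 2) true) d) 3 := by
      refine ((Runs.pop _ 1).seq ((Runs.push _ 2 true).seq (Runs.push _ 2 true))).conv rfl ?_
        (by omega)
      simp [List.replicate_succ]
    refine (Runs.loopCons (by simp) h1 (ih (j + 2))).conv rfl ?_ (by omega)
    congr 2
    omega

/-- second half of the doubling -/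
def dbl2 : Cmd ℕ := Cmd.loop 2 (Cmd.seq (Cmd.pop 2) (Cmd.push 1 true))

theorem dbl2_runs (a d : List Bool) : ∀ k j : ℕ,
    Runs dbl2 (s4 a (List.replicate j true) (List.replicate k true) d)
      (s4 a (List.replicate (j + k) true) [] d) (3 * k + 1) := by
  intro k
  induction k with
  | zero =>
    intro j
    exact (Runs.loopNil (by simp)).conv rfl (by simp) (by simp)
  | succ k ih =>
    intro j
    have h1 : Runs (Cmd.seq (Cmd.pop 2) (Cmd.push 1 true))
        (s4 a (List.replicate j true) (List.replicate (k + 1) true) d)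
        (s4 a (List.replicate (j + 1) true) (List.replicate k true) d) 2 := by
      refine ((Runs.pop _ 2).seq (Runs.push _ 1 true)).conv rfl ?_ (by omega)
      simp [List.replicate_succ]
    refine (Runs.loopCons (by simp) h1 (ih (j + 1))).conv rfl ?_ (by omega)
    congr 2
    omega

/-- the main loop body -/
def exBody : Cmd ℕ :=
  Cmd.cases 0 (Cmd.pop 3) (Cmd.pop 3) (Cmd.seq (Cmd.pop 0) (Cmd.seq dbl1 dbl2))

theorem exLoop_runs : ∀ (z : List Bool) (k : ℕ), 1 ≤ k →
    Runs (Cmd.loop 3 exBody) (s4 z (List.replicate k true) [] [true])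
      (s4 (rest z) (List.replicate (k * 2 ^ lead z) true) [] [])
      (20 * (k * 2 ^ lead z) - 15 * k) := by
  intro z
  induction z with
  | nil =>
    intro k hk
    have h1 : Runs exBody (s4 [] (List.replicate k true) [] [true])
        (s4 [] (List.replicate k true) [] []) 2 :=
      (Runs.casesNil (by simp) (Runs.pop _ 3)).conv rfl (by simp) le_rfl
    refine (Runs.loopCons (by simp) h1 (Runs.loopNil (by simp))).conv rfl ?_ ?_
    · simp [rest, lead]
    · simp only [lead]; omega
  | cons b z ih =>
    intro k hk
    cases b with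
    | false =>
      have h1 : Runs exBody (s4 (false :: z) (List.replicate k true) [] [true])
          (s4 (false :: z) (List.replicate k true) [] []) 2 :=
        (Runs.casesFalse (l := z) (by simp) (Runs.pop _ 3)).conv rfl (by simp) le_rfl
      refine (Runs.loopCons (by simp) h1 (Runs.loopNil (by simp))).conv rfl ?_ ?_
      · simp [rest, lead]
      · simp only [lead]; omega
    | true =>
      have h2 : Runs (Cmd.pop 0) (s4 (true :: z) (List.replicate k true) [] [true])
          (s4 z (List.replicate k true) [] [true]) 1 :=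
        (Runs.pop _ 0).conv rfl (by simp) le_rfl
      have h3 := dbl1_runs z [true] k 0
      rw [List.replicate_zero, Nat.zero_add] at h3
      have h4 := dbl2_runs z [true] (2 * k) 0
      rw [List.replicate_zero, Nat.zero_add] at h4
      have h1 : Runs exBody (s4 (true :: z) (List.replicate k true) [] [true])
          (s4 z (List.replicate (2 * k) true) [] [true]) (1 + ((4 * k + 1) + (3 * (2 * k) + 1)) + 1) :=
        Runs.casesTrue (l := z) (by simp) (h2.seq (h3.seq h4))
      refine (Runs.loopCons (by simp) h1 (ih (2 * k) (by omega))).conv rfl ?_ ?_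
      · simp only [rest, lead]
        congr 2
        ring
      · simp only [lead]
        have e : k * 2 ^ (lead z + 1) = 2 * k * 2 ^ lead z := by ring
        rw [e]
        have h5 : 1 ≤ 2 ^ lead z := Nat.one_le_two_pow
        have h6 : 2 * k * 1 ≤ 2 * k * 2 ^ lead z := Nat.mul_le_mul_left _ h5
        omega

/-- moving the ones to the input stack -/
def mvT : Cmd ℕ := Cmd.loop 1 (Cmd.seq (Cmd.pop 1) (Cmd.push 0 true))

theorem mvT_runs : ∀ (k : ℕ) (a : List Bool),
    Runs mvT (s4 a (List.replicate k true) [] [])
      (s4 (List.replicate k true ++ a) [] [] []) (3 * k + 1) := by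
  intro k
  induction k with
  | zero =>
    intro a
    exact (Runs.loopNil (by simp)).conv rfl (by simp) (by simp)
  | succ k ih =>
    intro a
    have h1 : Runs (Cmd.seq (Cmd.pop 1) (Cmd.push 0 true))
        (s4 a (List.replicate (k + 1) true) [] [])
        (s4 (true :: a) (List.replicate k true) [] []) 2 := by
      refine ((Runs.pop _ 1).seq (Runs.push _ 0 true)).conv rfl ?_ (by omega)
      simp [List.replicate_succ]
    refine (Runs.loopCons (by simp) h1 (ih (true :: a))).conv rfl ?_ (by omega)
    rw [List.replicate_succ', List.append_assoc]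
    rfl

/-- the expansion program -/
def exProg : Cmd ℕ :=
  Cmd.seq (Cmd.push 1 true) (Cmd.seq (Cmd.push 3 true) (Cmd.seq (Cmd.loop 3 exBody) mvT))

theorem exProg_runs (z : List Bool) : Runs exProg (inp z) (inp (Ex z)) (24 * 2 ^ lead z) := by
  rw [inp_eq_s4, inp_eq_s4]
  have h1 : Runs (Cmd.push 1 true) (s4 z [] [] []) (s4 z (List.replicate 1 true) [] []) 1 :=
    (Runs.push _ 1 true).conv rfl (by simp) le_rfl
  have h2 : Runs (Cmd.push 3 true) (s4 z (List.replicate 1 true) [] [])
      (s4 z (List.replicate 1 true) [] [true]) 1 :=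
    (Runs.push _ 3 true).conv rfl (by simp) le_rfl
  have h3 := exLoop_runs z 1 le_rfl
  rw [Nat.one_mul] at h3
  have h4 := mvT_runs (2 ^ lead z) (rest z)
  refine (h1.seq (h2.seq (h3.seq h4))).conv rfl rfl ?_
  have h5 : 1 ≤ 2 ^ lead z := Nat.one_le_two_pow
  omega

/-- **Exponentially padded polynomial time.** -/
theorem padMain {g G : List Bool → List Bool} (hg : PolyTime g) (hG : PolyTime G) {M : ℕ → ℕ}
    (hM : ∀ x, lead (g x) ≤ M x.length) :
    ∃ (q : Polynomial ℕ) (h : TM2ComputableInTime (id : List Bool → List Bool)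
      (id : List Bool → List Bool) (fun x => G (Ex (g x)))),
      ∀ n, h.time n ≤ q.eval (n + 2 ^ M n) := by
  obtain ⟨r, hr⟩ := (polyTime_toPC hg).length_le
  obtain ⟨cg, pg, hcg⟩ := polyTime_toPC hg
  obtain ⟨cG, pG, hcG⟩ := polyTime_toPC hG
  have key : ∀ x : List Bool, Runs (Cmd.seq cg (Cmd.seq exProg cG)) (inp x) (inp (G (Ex (g x))))
      (pg.eval x.length + (24 * 2 ^ M x.length + pG.eval (2 ^ M x.length + r.eval x.length))) := by
    intro x
    have h1 := hcg x
    have h2 := exProg_runs (g x)
    have h3 := hcG (Ex (g x))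
    simp only [id_eq] at h1 h3
    refine (h1.seq (h2.seq h3)).mono ?_
    have h4 : 2 ^ lead (g x) ≤ 2 ^ M x.length := Nat.pow_le_pow_right (by norm_num) (hM x)
    have h5 : (Ex (g x)).length ≤ 2 ^ M x.length + r.eval x.length := by
      have h6 := rest_length (g x)
      have h7 := hr x
      simp only [id_eq] at h7
      unfold Ex
      rw [List.length_append, List.length_replicate]
      omega
    have h8 := eval_mono pG h5
    omega
  obtain ⟨h, hh⟩ := ofRuns (f := fun x => G (Ex (g x))) (Cmd.seq cg (Cmd.seq exProg cG))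
    (fun n => pg.eval n + (24 * 2 ^ M n + pG.eval (2 ^ M n + r.eval n))) key
  refine ⟨pg + 24 * Polynomial.X + pG.comp (Polynomial.X + r) + 1, h, fun n => ?_⟩
  rw [hh]
  simp only [Polynomial.eval_add, Polynomial.eval_mul, Polynomial.eval_comp, Polynomial.eval_X,
    Polynomial.eval_one, Polynomial.eval_ofNat]
  have h1 := eval_mono pg (Nat.le_add_right n (2 ^ M n))
  have h2 := eval_mono r (Nat.le_add_right n (2 ^ M n))
  have h3 := eval_mono pG (show 2 ^ M n + r.eval n ≤ n + 2 ^ M n + r.eval (n + 2 ^ M n) from
    Nat.add_le_add (Nat.le_add_left _ _) h2)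
  have h4 : 2 ^ M n ≤ n + 2 ^ M n := Nat.le_add_left _ _
  omega

end Pool.Agent.W60.SE
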