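import Pool.Agent.W60.SE.PolyD
import Pool.Agent.W60.SE.Pad

/-!
# The diagonal language is decided in time given by the stages
-/

namespace Pool.Agent.W60.SE

open Turing Pool.Agent.NPC Pool.Agent.H660R2.NX Pool.Agent.H639R2.NTP

section General

variable {α : Type} [TEnc α]

theorem poly_bits : Poly (fun a : α => bits a) :=
  PC.comp (g := fun x : List Bool => x) (f := fun a : α => bits a) PC.rawIn
    ⟨Cmd.skip, 1, fun a => (Runs.skip _).mono (by simp)⟩

theorem poly_take {t : α → List Bool} {m : α → ℕ} (ht : Poly t) (hm : Poly m) :
    Poly (fun a => (t a).take (m a)) := by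
  have h1 : UPoly (fun a => (t a).length) := UPoly.length ht
  have h2 : UPoly (fun a => min (m a) (t a).length) :=
    UPoly.of_le (Poly.min hm h1.toPoly) h1 fun a => min_le_right _ _
  have h3 : Poly (fun p : α × ℕ => t p.1) := Poly.comp ht (Poly.fst Poly.id)
  refine (NPC.Poly.map (F := fun a i => (t a).getD i false) h2.range (by fun_prop)).congr
    fun a => ?_
  apply List.ext_getElem
  · simp
  · intro i h4 h5
    simp only [List.length_map, List.length_range, lt_min_iff] at h4
    simp [List.getElem?_eq_getElem h4.2]

theorem upoly_log {n : α → ℕ} (hn : UPoly n) : UPoly (fun a => Nat.log 2 (n a)) := by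
  have h1 : UPoly (fun a => lu (n a) (fun i => decide (2 ^ (i + 1) ≤ n a))) := by
    refine upoly_lu hn (P := fun a i => decide (2 ^ (i + 1) ≤ n a)) ?_
    have h2 : UPoly (fun p : α × List Unit => p.2.length + 1) :=
      (UPoly.length (Poly.snd Poly.id)).add (UPoly.const 1)
    exact Poly.decide_le (poly_two_pow h2) (hn.comp (Poly.fst Poly.id)).toPoly
  refine Poly.congr h1 fun a => ?_
  congr 1
  change lu (n a) (fun i => decide (2 ^ (i + 1) ≤ n a)) = Nat.log 2 (n a)
  rcases Nat.eq_zero_or_pos (n a) with h0 | h0
  · rw [h0]; simp [lu]
  · have h3 : ∀ i, decide (2 ^ (i + 1) ≤ n a) = true ↔ i < Nat.log 2 (n a) := by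
      intro i
      rw [decide_eq_true_iff, ← Nat.le_log_iff_pow_le (by norm_num) (by omega)]
      exact Nat.succ_le_iff
    refine lu_eq (Nat.log_lt_self 2 (by omega)) (fun i hi => (h3 i).2 hi) ?_
    rw [Bool.eq_false_iff]
    intro h
    exact absurd ((h3 _).1 h) (lt_irrefl _)

end General

section

variable (s : ℕ → ℕ → ℕ) (c : Nat.Partrec.Code) (D : ℕ → Code × ℕ)

/-- The value with capped time. -/
def betaN (N n : ℕ) (t : List Bool) : Bool :=
  !(outN s D N (stage c n t) (cand s D n t (stage c n t)) n)

/-- One step of the construction of the table, with capped time. -/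
def tstep (N : ℕ) (u : List Bool) : List Bool :=
  u ++ [betaN s c D N u.length (u.take (Nat.log 2 u.length))]

variable {s} in
theorem betaN_eq (hs : ∀ i n, s i n ≤ n) {N n : ℕ} (h : 2 ^ n ≤ N) (t : List Bool) : betaN s c D N n t = beta s c D n t := by
  unfold betaN beta
  rw [outN_eq D hs h]

variable {s} in
theorem tstep_iterate (hs : ∀ i n, s i n ≤ n) (N : ℕ) : ∀ l, (∀ j < l, 2 ^ j ≤ N) → (tstep s c D N)^[l] [] = tb s c D l := by
  intro l
  induction l with
  | zero => intro _; rfl
  | succ l ih =>
    intro h
    rw [Function.iterate_succ_apply', ih fun j hj => h j (by omega)]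
    have h1 : (tb s c D l).length = l := by rw [tb_eq]; simp
    unfold tstep
    rw [h1, betaN_eq c D hs (h l (by omega))]
    rfl

variable {s} in
theorem hist_eq_iterate (hs : ∀ i n, s i n ≤ n) (n : ℕ) : hist s c D n = (tstep s c D n)^[Nat.log 2 n] [] := by
  rw [tstep_iterate c D hs n _ fun j hj => two_pow_le_of_lt_log hj, hist_eq_tb]

variable {s c D}
variable (hs0 : ∀ i n, s i n ≤ n)
variable (hs1 : UPoly (fun p : List Unit × List Unit => s p.1.length p.2.length))
variable (hD1 : Poly (fun u : List Unit => (D u.length).1))
variable (hD2 : UPoly (fun u : List Unit => (D u.length).2))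
variable {α : Type} [TEnc α]

include hs0 hs1 hD1 hD2 in
theorem poly_hist {n : α → ℕ} (hn : UPoly n) : Poly (fun a => hist s c D (n a)) := by
  have hlog := upoly_log hn
  obtain ⟨q, hq⟩ := Poly.sz_le hn
  have h1 : Poly (fun a => (tstep s c D (n a))^[(List.replicate (Nat.log 2 (n a)) ()).length]
      ([] : List Bool)) := by
    refine Poly.iterLen (F := fun a u => tstep s c D (n a) u) hlog (NPC.Poly.const []) ?_
      (4 * q + 1) ?_
    · unfold tstep betaN
      have hl : UPoly (fun p : α × List Bool => p.2.length) := UPoly.length (Poly.snd Poly.id)
      have hn' : UPoly (fun p : α × List Bool => n p.1) := hn.comp (Poly.fst Poly.id)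
      have ht : Poly (fun p : α × List Bool => p.2.take (Nat.log 2 p.2.length)) :=
        poly_take (Poly.snd Poly.id) (upoly_log hl).toPoly
      have hs := upoly_stage (c := c) hl ht
      have hb := poly_outN hs1 hD1 hn' hs (upoly_cand hs1 hD1 hD2 hl ht hs) hl
      exact Poly.append (Poly.snd Poly.id) (Poly.cons (Poly.not hb) (NPC.Poly.const []))
    · intro a k hk
      rw [List.length_replicate] at hk
      have h2 : ∀ k, ((tstep s c D (n a))^[k] ([] : List Bool)).length = k := by
        intro k
        induction k with
        | zero => rfl
        | succ k ih =>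
          rw [Function.iterate_succ_apply', tstep, List.length_append, ih]
          rfl
      have h3 := sz_listBool_le ((tstep s c D (n a))^[k] ([] : List Bool))
      rw [h2] at h3
      have h4 := hq a
      have h5 := length_lt_sz (List.replicate (n a) ())
      rw [List.length_replicate] at h5
      have h6 := log_le (n a)
      change sz ((tstep s c D (n a))^[k] ([] : List Bool)) ≤ _
      simp only [Polynomial.eval_add, Polynomial.eval_mul, Polynomial.eval_one,
        Polynomial.eval_ofNat]
      omega
  refine h1.congr fun a => ?_
  rw [List.length_replicate, ← hist_eq_iterate c D hs0]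

/-! ### the machine -/

/-- The exponent of the time allowed on words of length `n`. -/
def Mf (s : ℕ → ℕ → ℕ) (c : Nat.Partrec.Code) (D : ℕ → Code × ℕ) (n : ℕ) : ℕ :=
  s (stage c n (hist s c D n) + 1) n

/-- The first part of the computation. -/
def gfun (s : ℕ → ℕ → ℕ) (c : Nat.Partrec.Code) (D : ℕ → Code × ℕ) (x : List Bool) : List Bool :=
  if x = x.map (fun _ => true) then
    List.replicate (Mf s c D x.length) true ++ (false :: bits ((D (cand s D x.length
      (hist s c D x.length) (stage c x.length (hist s c D x.length)))).1, x))
  else [false]

include hs0 hs1 hD1 hD2 in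
theorem poly_gfun : Poly (gfun s c D) := by
  unfold gfun Mf
  have hl : UPoly (fun x : List Bool => x.length) := UPoly.length Poly.id
  have hh : Poly (fun x : List Bool => hist s c D x.length) := poly_hist hs0 hs1 hD1 hD2 hl
  have hs : UPoly (fun x : List Bool => stage c x.length (hist s c D x.length)) :=
    upoly_stage hl hh
  have hc : UPoly (fun x : List Bool => cand s D x.length
      (hist s c D x.length) (stage c x.length (hist s c D x.length))) :=
    upoly_cand hs1 hD1 hD2 hl hh hs
  have hm : UPoly (fun x : List Bool => s (stage c x.length (hist s c D x.length) + 1) x.length) :=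
    upoly_s hs1 (hs.add (UPoly.const 1)) hl
  have h1 : Poly (fun x : List Bool => List.replicate
      (s (stage c x.length (hist s c D x.length) + 1) x.length) true) :=
    (NPC.Poly.map hm (F := fun _ _ => true) (NPC.Poly.const true)).congr fun a => by
      rw [List.map_replicate]
  have h2 : Poly (fun x : List Bool => (D (cand s D x.length
      (hist s c D x.length) (stage c x.length (hist s c D x.length)))).1) :=
    (Poly.comp hD1 hc).congr fun a => by rw [List.length_replicate]
  have h3 : Poly (fun x : List Bool => bits ((D (cand s D x.length
      (hist s c D x.length) (stage c x.length (hist s c D x.length)))).1, x)) :=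
    Poly.comp (poly_bits (α := Code × List Bool)) (Poly.pair h2 Poly.id)
  have h4 : Poly (fun x : List Bool => decide (x = x.map (fun _ => true))) := by fun_prop
  exact Poly.ite h4 (Poly.append h1 (Poly.cons (NPC.Poly.const false) h3)) (NPC.Poly.const [false])

/-- Splitting off one leading one. -/
def spl (s : List Bool × List Unit) : List Bool × List Unit :=
  if s.1.head? = some true then (s.1.tail, () :: s.2) else s

theorem spl_iterate : ∀ (z : List Bool) (k : ℕ) (u : List Unit), z.length ≤ k →
    spl^[k] (z, u) = (rest z, List.replicate (lead z) () ++ u) := by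
  have h0 : ∀ (z : List Bool) (u : List Unit), z.head? ≠ some true → ∀ k, spl^[k] (z, u) = (z, u) := by
    intro z u hz k
    induction k with
    | zero => rfl
    | succ k ih =>
      rw [Function.iterate_succ_apply]
      have : spl (z, u) = (z, u) := by
        unfold spl
        rw [if_neg hz]
      rw [this, ih]
  intro z
  induction z with
  | nil =>
    intro k u _
    rw [h0 [] u (by simp) k]
    simp [rest, lead]
  | cons b z ih =>
    intro k u hk
    cases b with
    | false =>
      rw [h0 (false :: z) u (by simp) k]
      simp [rest, lead]
    | true =>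
      obtain ⟨k, rfl⟩ : ∃ k', k = k' + 1 := ⟨k - 1, by simp only [List.length_cons] at hk; omega⟩
      rw [Function.iterate_succ_apply]
      have : spl (true :: z, u) = (z, () :: u) := by simp [spl]
      rw [this, ih k _ (by simp only [List.length_cons] at hk; omega)]
      simp only [rest, lead, Prod.mk.injEq, true_and]
      rw [List.replicate_succ', List.append_assoc]
      rfl

/-- The second part of the computation. -/
def Gfun (z : List Bool) : List Bool :=
  [(unbits (Code × List Bool) (spl^[z.length] (z, [])).1.tail).elim false
    (fun p => !(decide (U p.1 p.2 (spl^[z.length] (z, [])).2.length = some [true])))]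

theorem poly_spl_iterate : Poly (fun z : List Bool => spl^[z.length] (z, ([] : List Unit))) := by
  refine Poly.iterLen (l := fun z : List Bool => z) (s := fun z : List Bool =>
    (z, ([] : List Unit))) (F := fun _ => spl) Poly.id (Poly.pair Poly.id (NPC.Poly.const [])) ?_
    (4 * Polynomial.X + 10) ?_
  · unfold spl
    fun_prop
  · intro z k _
    have h1 : ∀ k (s : List Bool × List Unit), sz (spl^[k] s) ≤ sz s := by
      intro k
      induction k with
      | zero => intro s; exact le_rfl
      | succ k ih =>
        intro s
        rw [Function.iterate_succ_apply]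
        refine (ih _).trans ?_
        obtain ⟨z, u⟩ := s
        unfold spl
        split_ifs with h
        · cases z with
          | nil => simp at h
          | cons b z =>
            have hb := sz_pos b
            simp only [List.tail_cons, sz_pair, sz_list_cons]
            have : sz () = 1 := rfl
            omega
        · exact le_rfl
    refine (h1 k _).trans ?_
    simp only [sz_pair, sz_list_nil, Polynomial.eval_add, Polynomial.eval_mul, Polynomial.eval_X,
      Polynomial.eval_ofNat]
    omega

theorem poly_Gfun : Poly Gfun := by
  unfold Gfun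
  have h1 := poly_spl_iterate
  have h2 : Poly (fun z : List Bool => (unbits (Code × List Bool)
      (spl^[z.length] (z, ([] : List Unit))).1.tail)) :=
    Poly.comp poly_unbits (Poly.tail (Poly.fst h1))
  have h3 : Poly (fun p : List Bool × (Code × List Bool) =>
      !(decide (U p.2.1 p.2.2 (spl^[p.1.length] (p.1, [])).2.length = some [true]))) := by
    have h4 : Poly (fun p : List Bool × (Code × List Bool) =>
        (spl^[p.1.length] (p.1, ([] : List Unit))).2) :=
      Poly.comp (g := fun z : List Bool => (spl^[z.length] (z, ([] : List Unit))).2)
        (Poly.snd h1) (Poly.fst Poly.id)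
    have h5 := Poly.comp poly_U (Poly.pair (f := fun p : List Bool × (Code × List Bool) => p.2.1)
      (Poly.fst (Poly.snd Poly.id)) (Poly.pair (f := fun p : List Bool × (Code × List Bool) =>
        p.2.2) (Poly.snd (Poly.snd Poly.id)) h4))
    exact Poly.not (Poly.dec_eq h5 (NPC.Poly.const (some [true])))
  exact Poly.cons (Poly.optElim h2 (NPC.Poly.const false) h3) (NPC.Poly.const [])

theorem lead_append (m : ℕ) (w : List Bool) : lead (List.replicate m true ++ (false :: w)) = m := by
  induction m with
  | zero => rfl
  | succ m ih => rw [List.replicate_succ, List.cons_append, lead, ih]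

theorem rest_append (m : ℕ) (w : List Bool) :
    rest (List.replicate m true ++ (false :: w)) = false :: w := by
  induction m with
  | zero => rfl
  | succ m ih => rw [List.replicate_succ, List.cons_append, rest, ih]

theorem Gfun_Ex_gfun (x : List Bool) : Gfun (Ex (gfun s c D x)) =
    [decide (x = x.map (fun _ => true)) && bv s c D x.length] := by
  by_cases hx : x = x.map (fun _ => true)
  · have hx2 : x = List.replicate x.length true := by
      conv_lhs => rw [hx]
      simp
    have h1 : gfun s c D x = List.replicate (Mf s c D x.length) true ++ (false :: bits ((D (cand s D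
        x.length (hist s c D x.length) (stage c x.length (hist s c D x.length)))).1, x)) := by
      unfold gfun
      rw [if_pos hx]
    rw [h1]
    unfold Ex
    rw [lead_append, rest_append]
    unfold Gfun
    rw [spl_iterate _ _ _ le_rfl, lead_append, rest_append, List.tail_cons, unbits_bits]
    simp only [Option.elim_some, List.append_nil, List.length_replicate, ← hx, decide_true,
      Bool.true_and]
    rw [bv_eq]
    unfold beta out Mf
    rw [← hx2]
  · have h1 : gfun s c D x = [false] := by
      unfold gfun
      rw [if_neg hx]
    rw [h1]
    simp only [hx, decide_false, Bool.false_and]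
    rfl

include hs0 hs1 hD1 hD2 in
/-- **The diagonal language is decided in the time given by the stages.** -/
theorem dlang_time : ∃ (q : Polynomial ℕ) (V : List Bool → List Bool)
    (h : TM2ComputableInTime (id : List Bool → List Bool) (id : List Bool → List Bool) V),
    (∀ n, h.time n ≤ q.eval (n + 2 ^ Mf s c D n)) ∧
    ∀ x, V x = [true] ↔ (x = List.replicate x.length true ∧ bv s c D x.length = true) := by
  have hM : ∀ x, lead (gfun s c D x) ≤ Mf s c D x.length := by
    intro x
    unfold gfun
    split_ifs
    · rw [lead_append]
    · exact Nat.zero_le _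
  obtain ⟨q, h, hh⟩ := padMain (polyTime_of_poly' (poly_gfun (c := c) hs0 hs1 hD1 hD2))
    (polyTime_of_poly' poly_Gfun) hM
  refine ⟨q, _, h, hh, fun x => ?_⟩
  rw [Gfun_Ex_gfun]
  have : x = x.map (fun _ => true) ↔ x = List.replicate x.length true := by
    rw [show x.map (fun _ => true) = List.replicate x.length true by simp]
  rw [List.cons.injEq, Bool.and_eq_true, decide_eq_true_iff, this]
  simp

end

end Pool.Agent.W60.SE
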