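import Pool.Agent.W60.SE.Defs
import Pool.Agent.W60.SE.Lang
import Pool.Agent.W60.SE.Asym
import Pool.Agent.H639R2.NTP.Basic

/-!
# `SUBEXP` has no decidable presentation
-/

namespace Pool.Agent.W60.SE

open Turing Pool.Agent.NPC Pool.Agent.H660R2.NX Pool.Agent.H639R2.NTP

/-- The word number `m`. -/
def wd (m : ℕ) : List Bool := (Encodable.decode m : Option (List Bool)).getD []

theorem wd_encode (x : List Bool) : wd (Encodable.encode x) = x := by
  simp [wd, Encodable.encodek]

theorem primrec_wd : Primrec wd := Primrec.option_getD.comp Primrec.decode (Primrec.const [])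

/-- The report on requirement `i` at the word number `m`, for the number `pair i m`. -/
def rep (f : ℕ → List Bool → Option Bool) (z : ℕ) : ℕ :=
  (f z.unpair.1 (wd z.unpair.2)).casesOn 1 (fun b =>
    if wd z.unpair.2 =
        (wd z.unpair.2).map (fun _ => true) then
      2 * (wd z.unpair.2).length + 2 + cond b 1 0
    else cond b 1 0)

theorem computable_rep {f : ℕ → List Bool → Option Bool} (hf : Computable₂ f) :
    Computable (rep f) := by
  have hx : Primrec (fun z : ℕ => wd z.unpair.2) :=
    primrec_wd.comp (Primrec.snd.comp Primrec.unpair)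
  have h1 : Computable (fun z : ℕ => f z.unpair.1 (wd z.unpair.2)) :=
    hf.comp (Primrec.fst.comp Primrec.unpair).to_comp hx.to_comp
  have hx2 : Primrec (fun p : ℕ × Bool => wd p.1.unpair.2) :=
    hx.comp Primrec.fst
  have hc : Primrec (fun p : ℕ × Bool => cond p.2 1 0) :=
    Primrec.cond Primrec.snd (Primrec.const 1) (Primrec.const 0)
  have h2 : Primrec (fun p : ℕ × Bool =>
      if wd p.1.unpair.2 =
        (wd p.1.unpair.2).map (fun _ => true) then
      2 * (wd p.1.unpair.2).length + 2 + cond p.2 1 0
      else cond p.2 1 0) := by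
    refine Primrec.ite ?_ ?_ hc
    · exact Primrec.eq.comp hx2 (Primrec.list_map hx2 (Primrec.const true).to₂)
    · exact Primrec.nat_add.comp (Primrec.nat_add.comp (Primrec.nat_mul.comp (Primrec.const 2)
        (Primrec.list_length.comp hx2)) (Primrec.const 2)) hc
  exact Computable.option_casesOn h1 (Computable.const 1) h2.to_comp.to₂

/-- The diagonal language. -/
def DL (s : ℕ → ℕ → ℕ) (c : Nat.Partrec.Code) (D : ℕ → Code × ℕ) : Set (List Bool) :=
  {x | x = List.replicate x.length true ∧ bv s c D x.length = true}

theorem bool_aux (b v : Bool) : (cond b 1 0 = cond v 0 1) ↔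
    ¬ ((v = true → b = true) ∧ (¬ v = true → b = false)) := by
  cases b <;> cases v <;> simp

theorem viol_iff (s : ℕ → ℕ → ℕ) (f : ℕ → List Bool → Option Bool) (c : Nat.Partrec.Code) (D : ℕ → Code × ℕ)
    (i m : ℕ) : Viol s c D (rep f (Nat.pair i m)) ↔
      ¬ ((wd m ∈ DL s c D →
          f i (wd m) = some true) ∧
        (wd m ∉ DL s c D →
          f i (wd m) = some false)) := by
  unfold rep Viol
  rw [Nat.unpair_pair]
  simp only
  set x := wd m with hx
  have hmap : x.map (fun _ => true) = List.replicate x.length true := by simp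
  rw [hmap]
  cases hfx : f i x with
  | none =>
    simp only [true_or, true_iff]
    intro h
    by_cases hD : x ∈ DL s c D
    · exact absurd (h.1 hD) (by simp)
    · exact absurd (h.2 hD) (by simp)
  | some b =>
    simp only [Option.some.injEq]
    by_cases ht : x = List.replicate x.length true
    · rw [if_pos ht]
      have hD : x ∈ DL s c D ↔ bv s c D x.length = true := by
        unfold DL
        rw [Set.mem_ofPred_eq]
        exact ⟨fun h => h.2, fun h => ⟨ht, h⟩⟩
      rw [hD, ← bool_aux]
      constructor
      · rintro (h | ⟨l, h⟩)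
        · omega
        · have hl : l = x.length := by
            cases b <;> cases hb : bv s c D l <;> simp only [hb, cond_true, cond_false] at h <;> omega
          rw [← hl] at h ⊢
          omega
      · intro h2
        exact Or.inr ⟨x.length, by omega⟩
    · rw [if_neg ht]
      have hD : x ∉ DL s c D := fun h => ht h.1
      simp only [hD, false_imp_iff, not_false_eq_true, true_imp_iff, true_and]
      cases b
      · simp
        intro l
        cases bv s c D l <;> simp
      · simp

theorem Descending.upoly {s : ℕ → ℕ → ℕ} (hs : Descending s) :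
    UPoly (fun p : List Unit × List Unit => s p.1.length p.2.length) := by
  obtain ⟨g, hg, h⟩ := hs.constructible
  have h1 : Poly (fun p : List Unit × List Unit =>
      g (pairBits (p.1.map (fun _ => true)) (p.2.map (fun _ => true)))) :=
    Poly.comp (poly_of_polyTime hg) (poly_pairBits (by fun_prop) (by fun_prop))
  refine Poly.congr (NPC.Poly.map h1 (F := fun _ _ => ()) (NPC.Poly.const ())) fun p => ?_
  have h2 : ∀ l : List Unit, l.map (fun _ => true) = List.replicate l.length true := by simp
  rw [h2, h2, h]
  simp

theorem Descending.anti' {s : ℕ → ℕ → ℕ} (hs : Descending s) {i j : ℕ} (h : i ≤ j) (n : ℕ) :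
    s j n ≤ s i n := by
  induction h with
  | refl => exact le_rfl
  | step _ ih => exact (hs.anti _ n).trans ih

/-- **Main theorem.** If all languages of a class with a decidable presentation are in the
intersection of a descending sequence of deterministic time classes then some language of the
intersection, consisting of words `1 ^ n`, is not in the class. -/
theorem main {s : ℕ → ℕ → ℕ} (hs : Descending s) {f : ℕ → List Bool → Option Bool}
    (hf : Computable₂ f) (hsub : Presented f ⊆ DTimes s) :
    ∃ L ∈ DTimes s, (∀ x ∈ L, x = List.replicate x.length true) ∧ L ∉ Presented f := by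
  obtain ⟨c, hc⟩ := Nat.Partrec.Code.exists_code.1 (Partrec.nat_iff.1 (computable_rep hf))
  have hr : ∀ z, rep f z ∈ Nat.Partrec.Code.eval c z := by
    intro z
    rw [hc]
    simp
  obtain ⟨D, hD1, hD2, hD3, _⟩ := exists_enum
  obtain ⟨q, V, hV, hVt, hVx⟩ := dlang_time (c := c) hs.le hs.upoly hD1 hD2
  have hDL : ∀ x, x ∈ DL s c D ↔ V x = [true] := fun x => (hVx x).symm
  -- membership in the presented class
  have hpres : DL s c D ∈ Presented f ↔ ∃ i, ∀ m, ¬ Viol s c D (rep f (Nat.pair i m)) := by
    constructor
    · rintro ⟨i, hi⟩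
      exact ⟨i, fun m hm => (viol_iff s f c D i m).1 hm (hi _)⟩
    · rintro ⟨i, hi⟩
      refine ⟨i, fun x => ?_⟩
      have h1 := hi (Encodable.encode x)
      rw [viol_iff, not_not, wd_encode] at h1
      exact h1
  -- all requirements are met
  have hall : ∀ i, ∃ m, Viol s c D (rep f (Nat.pair i m)) := by
    intro i
    induction i using Nat.strong_induction_on with
    | _ i ih =>
      by_contra hi
      push Not at hi
      have h1 : DL s c D ∈ Presented f := hpres.2 ⟨i, hi⟩
      obtain ⟨C, W, hW, hWt, hWx⟩ := hsub h1 (i + 2)
      obtain ⟨e, a, he⟩ := U_time hW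
      obtain ⟨N, hN⟩ := time_fits hs i a ⌈C⌉₊
      obtain ⟨k, hk⟩ := hD3 e N
      obtain ⟨l, hl1, hl2⟩ := diag hr hs.le ih hi k
      rw [hk] at hl1
      simp only at hl1
      apply hl2
      unfold out
      rw [hk]
      simp only
      have h2 : U e (List.replicate l true) (2 ^ s (i + 1) l) =
          some (W (List.replicate l true)) := by
        apply he
        rw [List.length_replicate]
        have h3 := hN l hl1
        have h4 := hWt l
        have h5 : hW.time l ≤ ⌈C⌉₊ * 2 ^ s (i + 2) l := by
          have h6 : (hW.time l : ℝ) ≤ ((⌈C⌉₊ * 2 ^ s (i + 2) l : ℕ) : ℝ) := by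
            push_cast
            refine h4.trans ?_
            exact mul_le_mul_of_nonneg_right (Nat.le_ceil C) (by positivity)
          exact_mod_cast h6
        exact (Nat.mul_le_mul_left _ (by omega)).trans h3
      have h6 : W (List.replicate l true) = [true] ↔ bv s c D l = true := by
        rw [← hWx]
        unfold DL
        rw [Set.mem_ofPred_eq, List.length_replicate]
        simp
      rw [Bool.eq_iff_iff, decide_eq_true_iff, h2, Option.some.injEq, h6]
  refine ⟨DL s c D, ?_, fun x hx => hx.1, ?_⟩
  · intro I
    obtain ⟨C, hC⟩ := time_small hs q (Mf s c D) (fun I => by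
      obtain ⟨N, hN⟩ := stage_tendsto (D := D) hr hall I
      exact ⟨N, fun n hn => hs.anti' ((hN n hn).trans (Nat.le_succ _)) n⟩) I
    refine ⟨(C : ℝ), V, hV, fun n => ?_, hDL⟩
    have h := (hVt n).trans (hC n)
    change (hV.time n : ℝ) ≤ (C : ℝ) * 2 ^ s I n
    exact_mod_cast h
  · rw [hpres]
    push Not
    exact hall

/-- No class with a decidable presentation is equal to the intersection of a descending sequence
of deterministic time classes. -/
theorem main_ne {s : ℕ → ℕ → ℕ} (hs : Descending s) {f : ℕ → List Bool → Option Bool}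
    (hf : Computable₂ f) : Presented f ≠ DTimes s := by
  intro h
  obtain ⟨L, h1, _, h2⟩ := main hs hf h.le
  rw [h] at h2
  exact h2 h1

end Pool.Agent.W60.SE
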