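import Pool.Agent.W60.SE.Diag
import Pool.Agent.H639R2.NTP.Bridge

/-!
# The history is computable in polynomial time
-/

namespace Pool.Agent.W60.SE

open Pool.Agent.NPC Pool.Agent.H660R2.NX Pool.Agent.H639R2.NTP

section General

variable {α β γ : Type} [TEnc α] [TEnc β] [TEnc γ]

/-- capping a unary argument -/
theorem poly_cap {n : α → ℕ} (hn : UPoly n) {F : α → ℕ → β}
    (hF : Poly (fun p : α × List Unit => F p.1 p.2.length)) :
    Poly (fun p : α × ℕ => F p.1 (min p.2 (n p.1))) := by
  have h1 : UPoly (fun p : α × ℕ => n p.1) := hn.comp (Poly.fst Poly.id)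
  have h2 : UPoly (fun p : α × ℕ => min p.2 (n p.1)) :=
    UPoly.of_le (Poly.min (Poly.snd Poly.id) h1.toPoly) h1 (fun p => min_le_right _ _)
  refine (Poly.comp hF (Poly.pair (Poly.fst Poly.id) h2)).congr fun p => ?_
  simp only [List.length_replicate]

theorem poly_range_all {n : α → ℕ} (hn : UPoly n) {P : α → ℕ → Bool}
    (hP : Poly (fun p : α × List Unit => P p.1 p.2.length)) :
    Poly (fun a => (List.range (n a)).all (P a)) := by
  refine (Poly.all (p := fun a j => P a (min j (n a))) hn.range (poly_cap hn hP)).congr fun a => ?_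
  rw [Bool.eq_iff_iff, List.all_eq_true, List.all_eq_true]
  refine forall_congr' fun j => ?_
  refine imp_congr_right fun hj => ?_
  rw [List.mem_range] at hj
  rw [min_eq_left hj.le]

theorem poly_range_any {n : α → ℕ} (hn : UPoly n) {P : α → ℕ → Bool}
    (hP : Poly (fun p : α × List Unit => P p.1 p.2.length)) :
    Poly (fun a => (List.range (n a)).any (P a)) := by
  refine (Poly.any (p := fun a j => P a (min j (n a))) hn.range (poly_cap hn hP)).congr fun a => ?_
  rw [Bool.eq_iff_iff, List.any_eq_true, List.any_eq_true]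
  refine exists_congr fun j => ?_
  refine and_congr_right fun hj => ?_
  rw [List.mem_range] at hj
  rw [min_eq_left hj.le]

theorem upoly_lu {n : α → ℕ} (hn : UPoly n) {P : α → ℕ → Bool}
    (hP : Poly (fun p : α × List Unit => P p.1 p.2.length)) :
    UPoly (fun a => lu (n a) (P a)) := by
  refine UPoly.of_le ?_ hn fun a => (lu_spec _ _).1
  have h1 : Poly (fun p : α × List Unit => (List.range (p.2.length + 1)).all (P p.1)) := by
    refine poly_range_all (α := α × List Unit) (n := fun p => p.2.length + 1)
      (P := fun p j => P p.1 j) ((UPoly.length (Poly.snd Poly.id)).add (UPoly.const 1)) ?_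
    exact Poly.comp hP (Poly.pair (Poly.fst (Poly.fst Poly.id)) (Poly.snd Poly.id))
  have h2 := poly_cap hn (F := fun a i => (List.range (i + 1)).all (P a)) h1
  refine (Poly.length (Poly.filter (p := fun a i => (List.range (min i (n a) + 1)).all (P a))
    hn.range h2)).congr fun a => ?_
  unfold lu
  congr 1
  apply List.filter_congr
  intro i hi
  rw [List.mem_range] at hi
  rw [min_eq_left hi.le]

theorem poly_zipIdx_any {t : α → List Bool} (ht : Poly t) {P : α → Bool → ℕ → Bool}
    (hP : Poly (fun p : (α × Bool) × List Unit => P p.1.1 p.1.2 p.2.length)) :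
    Poly (fun a => (t a).zipIdx.any (fun p => P a p.1 p.2)) := by
  have hn : UPoly (fun p : α × Bool => (t p.1).length) :=
    UPoly.length (ht.comp (Poly.fst Poly.id))
  have h1 := poly_cap hn (F := fun (p : α × Bool) j => P p.1 p.2 j) hP
  have h2 : Poly (fun p : α × (Bool × ℕ) => P p.1 p.2.1 (min p.2.2 (t p.1).length)) :=
    Poly.comp h1 (Poly.pair (Poly.pair (Poly.fst Poly.id) (Poly.fst (Poly.snd Poly.id)))
      (Poly.snd (Poly.snd Poly.id)))
  refine (Poly.any (p := fun a (q : Bool × ℕ) => P a q.1 (min q.2 (t a).length))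
    (Poly.zipIdx ht) h2).congr fun a => ?_
  rw [Bool.eq_iff_iff, List.any_eq_true, List.any_eq_true]
  refine exists_congr fun q => ?_
  refine and_congr_right fun hq => ?_
  obtain ⟨b, l⟩ := q
  have h3 := List.mem_zipIdx_iff_getElem?.1 hq
  have h4 : l < (t a).length := by
    by_contra hc
    rw [List.getElem?_eq_none (by omega)] at h3
    simp at h3
  simp only
  rw [min_eq_left h4.le]

theorem poly_two_pow {n : α → ℕ} (hn : UPoly n) : Poly (fun a => 2 ^ n a) := by
  have h1 : Poly (fun a => (List.replicate (n a) ()).map (fun _ => false) ++ [true]) :=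
    Poly.append (NPC.Poly.map hn (F := fun _ _ => false) (NPC.Poly.const false)) (NPC.Poly.const [true])
  refine (Poly.valBits h1).congr fun a => ?_
  rw [List.map_replicate, valB_replicate_false]
  simp

theorem upoly_min_pow {n m : α → ℕ} (hn : UPoly n) (hm : UPoly m) :
    UPoly (fun a => min (n a) (2 ^ m a)) :=
  UPoly.of_le (Poly.min hn.toPoly (poly_two_pow hm)) hn fun _ => min_le_left _ _

theorem upoly_mu {i n : α → ℕ} (hi : UPoly i) (hn : UPoly n) :
    UPoly (fun a => mu (i a) (n a)) := by
  have h1 : Poly (fun a => (fun l : List Unit => List.replicate (Nat.sqrt l.length) ())^[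
      (List.replicate (i a) ()).length] (List.replicate (n a) ())) := by
    obtain ⟨q, hq⟩ := Poly.sz_le hn
    refine Poly.iterLen (F := fun (_ : α) (l : List Unit) =>
      List.replicate (Nat.sqrt l.length) ()) hi hn ?_ q ?_
    · have h2 : UPoly (fun l : List Unit => Nat.sqrt l.length) :=
        UPoly.of_le (br_sqrt (UPoly.length Poly.id)) (UPoly.length Poly.id)
          fun l => Nat.sqrt_le_self _
      exact Poly.comp h2 (Poly.snd Poly.id)
    · intro a k _
      have h3 : ∀ k (l : List Unit), sz ((fun l : List Unit =>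
          List.replicate (Nat.sqrt l.length) ())^[k] l) ≤ sz l := by
        intro k
        induction k with
        | zero => intro l; exact le_rfl
        | succ k ih =>
          intro l
          rw [Function.iterate_succ_apply]
          refine (ih _).trans ?_
          have h4 : ∀ l : List Unit, sz l = 2 * l.length + 1 := by
            intro l
            induction l with
            | nil => simp
            | cons u l ih => simp [ih]; ring
          rw [h4, h4, List.length_replicate]
          have := Nat.sqrt_le_self l.length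
          omega
      exact (h3 k _).trans (hq a)
  refine h1.congr fun a => ?_
  rw [List.length_replicate]
  have h5 : ∀ k m, (fun l : List Unit => List.replicate (Nat.sqrt l.length) ())^[k]
      (List.replicate m ()) = List.replicate (mu k m) () := by
    intro k
    induction k with
    | zero => intro m; rfl
    | succ k ih =>
      intro m
      rw [Function.iterate_succ_apply', ih, mu_succ]
      simp
  rw [h5]

end General

section

variable {s : ℕ → ℕ → ℕ} {c : Nat.Partrec.Code} {D : ℕ → Code × ℕ}
variable (hs1 : UPoly (fun p : List Unit × List Unit => s p.1.length p.2.length))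
variable (hD1 : Poly (fun u : List Unit => (D u.length).1))
variable (hD2 : UPoly (fun u : List Unit => (D u.length).2))
variable {α : Type} [TEnc α]

include hs1 in
theorem upoly_s {i n : α → ℕ} (hi : UPoly i) (hn : UPoly n) : UPoly (fun a => s (i a) (n a)) :=
  Poly.congr (hs1.comp (Poly.pair hi hn)) fun a => by simp only [List.length_replicate]

include hs1 hD1 in
theorem poly_outN {n i k l : α → ℕ} (hn : UPoly n) (hi : UPoly i) (hk : UPoly k) (hl : UPoly l) :
    Poly (fun a => outN s D (n a) (i a) (k a) (l a)) := by
  unfold outN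
  have h1 : Poly (fun a => (D (k a)).1) :=
    (Poly.comp hD1 hk).congr fun a => by rw [List.length_replicate]
  have h2 : Poly (fun a => List.replicate (l a) true) :=
    (NPC.Poly.map hl (F := fun _ _ => true) (NPC.Poly.const true)).congr fun a => by
      rw [List.map_replicate]
  have h3 : UPoly (fun a => min (n a) (2 ^ s (i a + 1) (l a))) :=
    upoly_min_pow hn (upoly_s hs1 (hi.add (UPoly.const 1)) hl)
  have h4 := Poly.comp poly_U (Poly.pair h1 (Poly.pair h2 h3))
  simp only [List.length_replicate] at h4
  exact Poly.dec_eq h4 (NPC.Poly.const (some [true]))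

theorem poly_viol {t : α → List Bool} {r : α → ℕ} (ht : Poly t) (hr : Poly r) :
    Poly (fun a => viol (t a) (r a)) := by
  unfold viol
  refine Poly.or (Poly.dec_eq hr (NPC.Poly.const 1)) ?_
  refine Poly.any (p := fun a (p : Bool × ℕ) => decide (r a = 2 * p.2 + 2 + cond p.1 0 1))
    (Poly.zipIdx ht) ?_
  have h1 : Poly (fun p : α × Bool × ℕ => r p.1) := Poly.comp hr (Poly.fst Poly.id)
  fun_prop

theorem poly_seen {n i : α → ℕ} {t : α → List Bool} (hn : UPoly n) (ht : Poly t) (hi : Poly i) :
    Poly (fun a => seen c (n a) (t a) (i a)) := by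
  unfold seen
  refine Poly.any (p := fun a m => (Nat.Partrec.Code.evaln (n a) c (Nat.pair (i a) m)).any
    (viol (t a))) hn.range ?_
  have h1 : UPoly (fun p : α × ℕ => n p.1) := hn.comp (Poly.fst Poly.id)
  have h2 : Poly (fun p : α × ℕ => i p.1) := Poly.comp hi (Poly.fst Poly.id)
  have h3 : Poly (fun p : (α × ℕ) × ℕ => t p.1.1) := Poly.comp ht (Poly.fst (Poly.fst Poly.id))
  refine Poly.optAny_fp (h := fun (p : α × ℕ) v => viol (t p.1) v)
    ((evP_all c).1.app h1 (br_polyPair h2 (Poly.snd Poly.id))) ?_
  exact poly_viol h3 (Poly.snd Poly.id)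

theorem upoly_stage {n : α → ℕ} {t : α → List Bool} (hn : UPoly n) (ht : Poly t) :
    UPoly (fun a => stage c (n a) (t a)) := by
  unfold stage
  refine upoly_lu hn (P := fun a i => seen c (n a) (t a) i) ?_
  exact poly_seen (hn.comp (Poly.fst Poly.id)) (Poly.comp ht (Poly.fst Poly.id))
    (UPoly.length (Poly.snd Poly.id)).toPoly

include hs1 hD1 hD2 in
theorem upoly_cand {n i : α → ℕ} {t : α → List Bool} (hn : UPoly n) (ht : Poly t)
    (hi : UPoly i) : UPoly (fun a => cand s D (n a) (t a) (i a)) := by
  unfold cand
  refine upoly_lu hn (P := fun a k => bad s D (n a) (t a) (i a) k) ?_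
  unfold bad
  refine poly_zipIdx_any (α := α × List Unit) (t := fun p => t p.1)
    (P := fun p b l => decide ((D p.2.length).2 ≤ l) && (outN s D (n p.1) (i p.1) p.2.length l ^^ b))
    (Poly.comp ht (Poly.fst Poly.id)) ?_
  have h1 : UPoly (fun q : ((α × List Unit) × Bool) × List Unit => q.1.1.2.length) :=
    UPoly.length (Poly.snd (Poly.fst (Poly.fst Poly.id)))
  have h2 : UPoly (fun q : ((α × List Unit) × Bool) × List Unit => q.2.length) :=
    UPoly.length (Poly.snd Poly.id)
  have h3 : UPoly (fun q : ((α × List Unit) × Bool) × List Unit => n q.1.1.1) :=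
    hn.comp (Poly.fst (Poly.fst (Poly.fst Poly.id)))
  have h4 : UPoly (fun q : ((α × List Unit) × Bool) × List Unit => i q.1.1.1) :=
    hi.comp (Poly.fst (Poly.fst (Poly.fst Poly.id)))
  have h5 : UPoly (fun q : ((α × List Unit) × Bool) × List Unit => (D q.1.1.2.length).2) :=
    hD2.comp (Poly.snd (Poly.fst (Poly.fst Poly.id)))
  exact Poly.and (Poly.decide_le h5.toPoly h2.toPoly)
    (Poly.xor (poly_outN hs1 hD1 h3 h4 h1 h2) (Poly.snd (Poly.fst Poly.id)))

end

end Pool.Agent.W60.SE
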