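import Pool.Agent.W60.SE.Scale
import Pool.Agent.H639R2.NTP.Comp

/-!
# Leaf classes have a decidable presentation
-/

namespace Pool.Agent.W60.SE

open Turing Pool.Agent.NPC Pool.Agent.H660R2.NX Pool.Agent.H639R2.NTP

/-- The words of length `k`. -/
def wordsOf : ℕ → List (List Bool)
  | 0 => [[]]
  | k + 1 => (wordsOf k).map (List.cons true) ++ (wordsOf k).map (List.cons false)

/-- The words of length at most `k`, the shorter ones first. -/
def wordsUpTo (k : ℕ) : List (List Bool) := (List.range (k + 1)).flatMap wordsOf

/-- The list of the answers of the test `V` on the word `x`, for all certificates of length at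
most `k`. -/
def leaves (V : List Bool → List Bool) (k : ℕ) (x : List Bool) : List Bool :=
  (wordsUpTo k).map (fun w => decide (V (pairBits x w) = [true]))

/-- The class of languages given by a condition `A` on the list of leaves: `L` is in the class if
for some polynomial-time test `V` and some polynomial `p` the value of `A` on the leaves of `x`
for certificates of length at most `p(|x|)` is `some true` for `x ∈ L` and `some false` for
`x ∉ L`.  The value `none` means that the promise is broken. -/
def LeafClass (A : List Bool → Option Bool) : Set (Set (List Bool)) :=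
  {L | ∃ (V : List Bool → List Bool) (p : Polynomial ℕ), PolyTime V ∧
    ∀ x, (x ∈ L → A (leaves V (p.eval x.length) x) = some true) ∧
      (x ∉ L → A (leaves V (p.eval x.length) x) = some false)}

theorem mem_wordsOf (k : ℕ) (w : List Bool) : w ∈ wordsOf k ↔ w.length = k := by
  induction k generalizing w with
  | zero => simp [wordsOf, List.length_eq_zero_iff]
  | succ k ih =>
    rcases w with _ | ⟨b, w⟩
    · simp [wordsOf]
    · cases b <;> simp [wordsOf, ih]

theorem mem_wordsUpTo (k : ℕ) (w : List Bool) : w ∈ wordsUpTo k ↔ w.length ≤ k := by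
  simp only [wordsUpTo, List.mem_flatMap, List.mem_range, mem_wordsOf]
  constructor
  · rintro ⟨a, h1, rfl⟩; omega
  · intro h; exact ⟨_, by omega, rfl⟩

/-- `NP` is the leaf class given by the condition that some leaf is true. -/
theorem np_eq : {L | InNP L} = LeafClass (fun l => some (l.any (fun b => b))) := by
  ext L
  simp only [LeafClass, Set.mem_ofPred_eq, InNP]
  constructor
  · rintro ⟨V, p, hV, h⟩
    refine ⟨V, p, hV, fun x => ?_⟩
    have h1 : (leaves V (p.eval x.length) x).any (fun b => b) = true ↔ x ∈ L := by
      rw [h]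
      simp only [leaves, List.any_eq_true, List.mem_map, mem_wordsUpTo]
      constructor
      · rintro ⟨b, ⟨w, hw, rfl⟩, hb⟩
        exact ⟨w, hw, by simpa using hb⟩
      · rintro ⟨w, hw, hb⟩
        exact ⟨_, ⟨w, hw, rfl⟩, by simpa using hb⟩
    refine ⟨fun hx => by rw [h1.2 hx], fun hx => ?_⟩
    rw [Option.some.injEq]
    by_contra h2
    exact hx (h1.1 (by simpa using h2))
  · rintro ⟨V, p, hV, h⟩
    refine ⟨V, p, hV, fun x => ?_⟩
    have h1 : (leaves V (p.eval x.length) x).any (fun b => b) = true ↔
        ∃ w : List Bool, w.length ≤ p.eval x.length ∧ V (pairBits x w) = [true] := by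
      simp only [leaves, List.any_eq_true, List.mem_map, mem_wordsUpTo]
      constructor
      · rintro ⟨b, ⟨w, hw, rfl⟩, hb⟩
        exact ⟨w, hw, by simpa using hb⟩
      · rintro ⟨w, hw, hb⟩
        exact ⟨_, ⟨w, hw, rfl⟩, by simpa using hb⟩
    rw [← h1]
    constructor
    · intro hx
      have := (h x).1 hx
      rwa [Option.some.injEq] at this
    · intro hx
      by_contra hx2
      have := (h x).2 hx2
      rw [Option.some.injEq, hx] at this
      exact absurd this (by simp)

/-- The value of the polynomial with coefficients `l`. -/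
def evp (l : List ℕ) (n : ℕ) : ℕ := l.foldr (fun a r => a + n * r) 0

theorem evp_of_poly (p : Polynomial ℕ) : ∃ l, ∀ n, evp l n = p.eval n := by
  have key : ∀ (d : ℕ) (c : ℕ → ℕ), ∃ l, ∀ n, evp l n = ∑ i ∈ Finset.range d, c i * n ^ i := by
    intro d
    induction d with
    | zero => intro c; exact ⟨[], fun n => by simp [evp]⟩
    | succ d ih =>
      intro c
      obtain ⟨l, hl⟩ := ih (fun i => c (i + 1))
      refine ⟨c 0 :: l, fun n => ?_⟩
      have h1 : evp (c 0 :: l) n = c 0 + n * evp l n := rfl
      rw [h1, hl, Finset.sum_range_succ', Finset.mul_sum, add_comm]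
      congr 1
      · refine Finset.sum_congr rfl fun i _ => ?_
        rw [pow_succ]; ring
      · simp
  obtain ⟨l, hl⟩ := key (p.natDegree + 1) p.coeff
  exact ⟨l, fun n => by rw [hl, Polynomial.eval_eq_sum_range]⟩

theorem poly_of_evp (l : List ℕ) : ∃ p : Polynomial ℕ, ∀ n, evp l n = p.eval n := by
  induction l with
  | nil => exact ⟨0, fun n => by simp [evp]⟩
  | cons a l ih =>
    obtain ⟨p, hp⟩ := ih
    refine ⟨Polynomial.C a + Polynomial.X * p, fun n => ?_⟩
    have h1 : evp (a :: l) n = a + n * evp l n := rfl
    rw [h1, hp]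
    simp

theorem primrec_evp : Primrec₂ evp := by
  have h1 : Primrec₂ (fun (p : List ℕ × ℕ) (q : ℕ × ℕ) => q.1 + p.2 * q.2) :=
    Primrec.nat_add.comp (Primrec.fst.comp Primrec.snd)
      (Primrec.nat_mul.comp (Primrec.snd.comp Primrec.fst) (Primrec.snd.comp Primrec.snd))
  exact Primrec.list_foldr (f := fun p : List ℕ × ℕ => p.1) (g := fun _ => 0)
    (h := fun p q => q.1 + p.2 * q.2) Primrec.fst (Primrec.const 0) h1

theorem primrec_wordsOf : Primrec wordsOf := by
  have h1 : Primrec₂ (fun (_ : ℕ) (r : List (List Bool)) =>
      r.map (List.cons true) ++ r.map (List.cons false)) := by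
    refine Primrec.list_append.comp ?_ ?_
    · exact Primrec.list_map Primrec.snd (Primrec.list_cons.comp (Primrec.const true) Primrec.snd)
    · exact Primrec.list_map Primrec.snd (Primrec.list_cons.comp (Primrec.const false) Primrec.snd)
  refine (Primrec.nat_rec₁ [[]] h1).of_eq fun n => ?_
  induction n with
  | zero => rfl
  | succ n ih => rw [wordsOf, ← ih]

theorem primrec_wordsUpTo : Primrec wordsUpTo :=
  Primrec.list_flatMap (Primrec.list_range.comp Primrec.succ)
    (primrec_wordsOf.comp Primrec.snd)

theorem primrec_pairBits : Primrec₂ pairBits := by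
  have h1 : Primrec₂ (fun (_ : List Bool × List Bool) (b : Bool) => [true, b]) :=
    Primrec.list_cons.comp (Primrec.const true)
      (Primrec.list_cons.comp Primrec.snd (Primrec.const []))
  exact Primrec.list_append.comp (Primrec.list_flatMap Primrec.fst h1)
    (Primrec.list_cons.comp (Primrec.const false) Primrec.snd)

theorem primrec_replicate : Primrec (fun n : ℕ => List.replicate n true) := by
  refine (Primrec.list_map Primrec.list_range (Primrec.const true).to₂).of_eq fun n => ?_
  simp

theorem primrec_any : Primrec (fun l : List Bool => l.any (fun b => b)) := by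
  have h1 : Primrec₂ (fun (_ : List Bool) (q : Bool × Bool) => q.1 || q.2) :=
    Primrec.or.comp (Primrec.fst.comp Primrec.snd) (Primrec.snd.comp Primrec.snd)
  refine (Primrec.list_foldr (f := fun l : List Bool => l) (g := fun _ => false)
    (h := fun _ q => q.1 || q.2) Primrec.id (Primrec.const false) h1).of_eq fun l => ?_
  induction l with
  | nil => rfl
  | cons b l ih => rw [List.any_cons, ← ih, List.foldr_cons]

/-- The universal test, on strings. -/
def UT (D : ℕ → Code × ℕ) (z : List Bool) : List Bool :=
  [decide (U (D (unpair z).1.length).1 (unpair (unpair z).2).1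
    (unpair (unpair z).2).2.length = some [true])]

theorem polyTime_UT {D : ℕ → Code × ℕ} (hD1 : Poly (fun u : List Unit => (D u.length).1)) :
    PolyTime (UT D) := by
  apply polyTime_of_poly'
  have h0 : UPoly (fun z : List Bool => (unpair z).1.length) := UPoly.length (Poly.fst poly_unpair)
  have h1 : Poly (fun z : List Bool => (D (unpair z).1.length).1) :=
    (Poly.comp hD1 h0).congr fun a => by rw [List.length_replicate]
  have h2 : Poly (fun z : List Bool => unpair (unpair z).2) :=
    Poly.comp poly_unpair (Poly.snd poly_unpair)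
  have h3 : UPoly (fun z : List Bool => (unpair (unpair z).2).2.length) :=
    UPoly.length (Poly.snd h2)
  have h4 := Poly.comp poly_U (Poly.pair h1 (Poly.pair (Poly.fst h2) h3))
  simp only [List.length_replicate] at h4
  have h5 := Poly.dec_eq h4 (NPC.Poly.const (some [true]))
  unfold UT
  fun_prop

/-- The index: number of the program, coefficients of the two polynomials. -/
def idx (i : ℕ) : ℕ × List ℕ × List ℕ :=
  (Encodable.decode i : Option (ℕ × List ℕ × List ℕ)).getD (0, [], [])

theorem primrec_idx : Primrec idx := Primrec.option_getD.comp Primrec.decode (Primrec.const _)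

theorem idx_encode (a : ℕ × List ℕ × List ℕ) : idx (Encodable.encode a) = a := by
  simp only [idx, Encodable.encodek, Option.getD_some]

/-- The answers of the test with index `i`. -/
def ans (D : ℕ → Code × ℕ) (i : ℕ) (z : List Bool) : Bool :=
  decide (U (D (idx i).1).1 z (evp (idx i).2.2 z.length) = some [true])

theorem primrec_ans {D : ℕ → Code × ℕ} (hD1 : Poly (fun u : List Unit => (D u.length).1)) :
    Primrec₂ (ans D) := by
  have hU : Primrec (UT D) := polyTime_primrec (polyTime_UT hD1)
  have hi : Primrec (fun q : ℕ × List Bool => idx q.1) := primrec_idx.comp Primrec.fst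
  have ha : Primrec (fun q : ℕ × List Bool => List.replicate (idx q.1).1 true) :=
    primrec_replicate.comp (Primrec.fst.comp hi)
  have hb : Primrec (fun q : ℕ × List Bool =>
      List.replicate (evp (idx q.1).2.2 q.2.length) true) :=
    primrec_replicate.comp (primrec_evp.comp (Primrec.snd.comp (Primrec.snd.comp hi))
      (Primrec.list_length.comp Primrec.snd))
  have hc : Primrec (fun q : ℕ × List Bool => pairBits (List.replicate (idx q.1).1 true)
      (pairBits q.2 (List.replicate (evp (idx q.1).2.2 q.2.length) true))) :=
    primrec_pairBits.comp ha (primrec_pairBits.comp Primrec.snd hb)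
  have hd : Primrec (fun q : ℕ × List Bool => decide (UT D (pairBits
      (List.replicate (idx q.1).1 true)
      (pairBits q.2 (List.replicate (evp (idx q.1).2.2 q.2.length) true))) = [true])) :=
    Primrec.eq.decide.comp (hU.comp hc) (Primrec.const [true])
  refine hd.of_eq fun q => ?_
  unfold ans UT
  simp only [unpair_pairBits, List.length_replicate, List.cons.injEq, and_true,
    decide_eq_true_eq]

/-- The presentation of a leaf class. -/
def lf (D : ℕ → Code × ℕ) (A : List Bool → Option Bool) (i : ℕ) (x : List Bool) : Option Bool :=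
  A ((wordsUpTo (evp (idx i).2.1 x.length)).map (fun w => ans D i (pairBits x w)))

theorem computable_lf {D : ℕ → Code × ℕ} (hD1 : Poly (fun u : List Unit => (D u.length).1))
    {A : List Bool → Option Bool} (hA : Computable A) : Computable₂ (lf D A) := by
  have h1 : Primrec₂ (fun (p : ℕ × List Bool) (w : List Bool) => ans D p.1 (pairBits p.2 w)) :=
    (primrec_ans hD1).comp (Primrec.fst.comp Primrec.fst)
      (primrec_pairBits.comp (Primrec.snd.comp Primrec.fst) Primrec.snd)
  have h2 : Primrec (fun p : ℕ × List Bool => wordsUpTo (evp (idx p.1).2.1 p.2.length)) :=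
    primrec_wordsUpTo.comp (primrec_evp.comp
      (Primrec.fst.comp (Primrec.snd.comp (primrec_idx.comp Primrec.fst)))
      (Primrec.list_length.comp Primrec.snd))
  have h3 : Primrec (fun p : ℕ × List Bool => (wordsUpTo (evp (idx p.1).2.1 p.2.length)).map
      (fun w => ans D p.1 (pairBits p.2 w))) := Primrec.list_map h2 h1
  exact hA.comp h3.to_comp

theorem U_polyTime {V : List Bool → List Bool} (hV : PolyTime V) :
    ∃ (e : Code) (q : Polynomial ℕ), ∀ z, U e z (q.eval z.length) = some (V z) := by
  obtain ⟨hV⟩ := hV
  obtain ⟨e, a, he⟩ := U_time hV.toTM2ComputableInTime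
  have h1 : ∀ n, hV.toTM2ComputableInTime.time n = hV.time.eval n := fun n => rfl
  refine ⟨e, Polynomial.C a * (hV.time + Polynomial.X + 1), fun z => he z _ ?_⟩
  rw [h1, Polynomial.eval_mul, Polynomial.eval_C, Polynomial.eval_add, Polynomial.eval_add,
    Polynomial.eval_X, Polynomial.eval_one]

theorem leafClass_sub {D : ℕ → Code × ℕ} (hD3 : ∀ e k, ∃ n, D n = (e, k))
    {A : List Bool → Option Bool} {L : Set (List Bool)} (hL : L ∈ LeafClass A) :
    L ∈ Presented (lf D A) := by
  obtain ⟨V, p, hV, h⟩ := hL
  obtain ⟨e, q, he⟩ := U_polyTime hV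
  obtain ⟨n, hn⟩ := hD3 e 0
  obtain ⟨l1, hl1⟩ := evp_of_poly p
  obtain ⟨l2, hl2⟩ := evp_of_poly q
  obtain ⟨i, hi⟩ : ∃ i, idx i = (n, l1, l2) := ⟨_, idx_encode _⟩
  refine ⟨i, fun x => ?_⟩
  have h1 : lf D A i x = A (leaves V (p.eval x.length) x) := by
    unfold lf leaves
    rw [hi, hl1]
    congr 1
    refine List.map_congr_left fun w _ => ?_
    unfold ans
    rw [hi]
    simp only
    rw [hn, hl2]
    simp only [he (pairBits x w), Option.some.injEq]
  rw [h1]
  exact h x

theorem leafClass_sup {D : ℕ → Code × ℕ} {A : List Bool → Option Bool} {L : Set (List Bool)}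
    (hL : L ∈ Presented (lf D A)) : L ∈ LeafClass A := by
  obtain ⟨i, hi⟩ := hL
  obtain ⟨p, hp⟩ := poly_of_evp (idx i).2.1
  obtain ⟨q, hq⟩ := poly_of_evp (idx i).2.2
  set e := (D (idx i).1).1 with he
  refine ⟨fun z => [decide (U e z (q.eval z.length) = some [true])], p, ?_, fun x => ?_⟩
  · apply polyTime_of_poly'
    have h1 : UPoly (fun z : List Bool => q.eval z.length) :=
      UPoly.eval (UPoly.length Poly.id) q
    have h4 := Poly.comp poly_U (Poly.pair (NPC.Poly.const (α := List Bool) e)
      (Poly.pair Poly.id h1))
    simp only [List.length_replicate] at h4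
    have h5 := Poly.dec_eq h4 (NPC.Poly.const (some [true]))
    fun_prop
  · have h1 : leaves (fun z => [decide (U e z (q.eval z.length) = some [true])])
        (p.eval x.length) x =
        (wordsUpTo (evp (idx i).2.1 x.length)).map (fun w => ans D i (pairBits x w)) := by
      unfold leaves
      rw [hp]
      refine List.map_congr_left fun w _ => ?_
      unfold ans
      rw [hq, ← he]
      simp
    rw [h1]
    exact hi x

/-- **Leaf classes have a decidable presentation.** -/
theorem leafClass_presented {A : List Bool → Option Bool} (hA : Computable A) :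
    ∃ f : ℕ → List Bool → Option Bool, Computable₂ f ∧ LeafClass A = Presented f := by
  obtain ⟨D, hD1, _, hD3, _⟩ := exists_enum
  exact ⟨lf D A, computable_lf hD1 hA, Set.Subset.antisymm (fun L => leafClass_sub hD3)
    (fun L => leafClass_sup)⟩

end Pool.Agent.W60.SE
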