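import Pool.Agent.W60.SE.Main

/-!
# The scale `2 ^ (n ^ (1 / 2 ^ i))`
-/

namespace Pool.Agent.W60.SE

open Turing Pool.Agent.NPC Pool.Agent.H660R2.NX Pool.Agent.H639R2.NTP

theorem mu_ge {i X n : ℕ} (h : X ^ (2 ^ i) ≤ n) : X ≤ mu i n := by
  by_contra hX
  push Not at hX
  have h1 := lt_mu_succ_pow i n
  have h2 : (mu i n + 1) ^ (2 ^ i) ≤ X ^ (2 ^ i) := Nat.pow_le_pow_left hX _
  omega

theorem sq_le_two_pow (k : ℕ) : k ^ 2 ≤ 2 ^ (k + 1) := by
  induction k with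
  | zero => norm_num
  | succ k ih =>
    rcases k with _ | _ | _ | k
    · norm_num
    · norm_num
    · norm_num
    · have : (k + 3 + 1) ^ 2 ≤ 2 * (k + 3) ^ 2 := by nlinarith [Nat.zero_le (k * k)]
      calc (k + 3 + 1) ^ 2 ≤ 2 * (k + 3) ^ 2 := this
        _ ≤ 2 * 2 ^ (k + 3 + 1) := Nat.mul_le_mul_left _ ih
        _ = 2 ^ (k + 3 + 1 + 1) := by rw [pow_succ 2 (k + 3 + 1)]; ring

theorem log_le_log (i n : ℕ) : Nat.log 2 n ≤ (Nat.log 2 (mu i n + 1) + 1) * 2 ^ i := by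
  rcases Nat.eq_zero_or_pos n with rfl | hn
  · simp
  have h1 := lt_mu_succ_pow i n
  have h2 : mu i n + 1 ≤ 2 ^ (Nat.log 2 (mu i n + 1) + 1) := (lt_two_pow_log _).le
  have h3 : n < 2 ^ ((Nat.log 2 (mu i n + 1) + 1) * 2 ^ i) := by
    rw [pow_mul]
    exact h1.trans_le (Nat.pow_le_pow_left h2 _)
  exact (Nat.log_lt_of_lt_pow hn.ne' h3).le

theorem mu_gap (i K : ℕ) : ∃ N, ∀ n ≥ N, K * (mu (i + 1) n + Nat.log 2 n + 1) ≤ mu i n := by
  set A := K * (2 ^ i * 2 + 2) with hA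
  refine ⟨((4 * A + 4) ^ 2) ^ (2 ^ i), fun n hn => ?_⟩
  have hm := mu_ge hn
  have hlog := log_le_log i n
  rw [mu_succ]
  set m := mu i n with hmdef
  set k := Nat.log 2 (m + 1) with hk
  set r := Nat.sqrt (2 * (m + 1)) with hr
  have h1 : k ≤ r := by
    rw [hr, Nat.le_sqrt']
    calc k ^ 2 ≤ 2 ^ (k + 1) := sq_le_two_pow k
      _ = 2 * 2 ^ k := by rw [pow_succ]; ring
      _ ≤ 2 * (m + 1) := Nat.mul_le_mul_left _ (Nat.pow_log_le_self 2 (by omega))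
  have h2 : Nat.sqrt m ≤ r := Nat.sqrt_le_sqrt (by omega)
  have h3 : r * r ≤ 2 * (m + 1) := Nat.sqrt_le _
  have h4 : 4 * A + 4 ≤ r := by
    rw [hr, Nat.le_sqrt']
    omega
  have h5 : K * (Nat.sqrt m + Nat.log 2 n + 1) ≤ A * (r + 1) := by
    rw [hA, mul_assoc]
    apply Nat.mul_le_mul_left
    have h6 : (k + 1) * 2 ^ i ≤ (r + 1) * 2 ^ i := Nat.mul_le_mul_right _ (by omega)
    nlinarith [Nat.zero_le ((r + 1) * 2 ^ i)]
  have h6 : 2 * (A * (r + 1)) ≤ 2 * m := by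
    nlinarith
  omega

theorem descending_mu : Descending mu where
  constructible := by
    refine ⟨fun z => List.replicate (mu (unpair z).1.length (unpair z).2.length) true,
      polyTime_of_poly' ?_, fun i n => ?_⟩
    · have h1 : UPoly (fun z : List Bool => mu (unpair z).1.length (unpair z).2.length) :=
        upoly_mu (UPoly.length (Poly.fst poly_unpair)) (UPoly.length (Poly.snd poly_unpair))
      exact (NPC.Poly.map h1 (F := fun _ _ => true) (NPC.Poly.const true)).congr fun a => by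
        rw [List.map_replicate]
    · simp only [unpair_pairBits, List.length_replicate]
  le := mu_le_self
  anti := fun i n => mu_anti (Nat.le_succ i) n
  gap := mu_gap

theorem mu_le_rpow (I n : ℕ) : (mu I n : ℝ) ≤ (n : ℝ) ^ ((1 : ℝ) / 2 ^ I) := by
  have h1 : ((mu I n : ℝ)) ^ (2 ^ I) ≤ n := by exact_mod_cast mu_pow_le I n
  have h2 : (0 : ℝ) < 2 ^ I := by positivity
  calc (mu I n : ℝ) = (((mu I n : ℝ)) ^ (2 ^ I)) ^ ((1 : ℝ) / 2 ^ I) := by
        rw [← Real.rpow_natCast, ← Real.rpow_mul (by positivity)]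
        push_cast
        rw [mul_one_div_cancel h2.ne', Real.rpow_one]
    _ ≤ (n : ℝ) ^ ((1 : ℝ) / 2 ^ I) :=
        Real.rpow_le_rpow (by positivity) h1 (by positivity)

theorem rpow_lt_mu_succ (I n : ℕ) : (n : ℝ) ^ ((1 : ℝ) / 2 ^ I) ≤ mu I n + 1 := by
  have h1 : (n : ℝ) ≤ ((mu I n + 1 : ℕ) : ℝ) ^ (2 ^ I) := by exact_mod_cast (lt_mu_succ_pow I n).le
  have h2 : (0 : ℝ) < 2 ^ I := by positivity
  calc (n : ℝ) ^ ((1 : ℝ) / 2 ^ I) ≤ (((mu I n + 1 : ℕ) : ℝ) ^ (2 ^ I)) ^ ((1 : ℝ) / 2 ^ I) :=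
        Real.rpow_le_rpow (by positivity) h1 (by positivity)
    _ = ((mu I n + 1 : ℕ) : ℝ) := by
        rw [← Real.rpow_natCast, ← Real.rpow_mul (by positivity)]
        push_cast
        rw [mul_one_div_cancel h2.ne', Real.rpow_one]
    _ = mu I n + 1 := by push_cast; ring

theorem DecidedIn.mono {B B' : ℕ → ℝ} {L : Set (List Bool)} (h : DecidedIn B L)
    (hB : ∀ n, B n ≤ B' n) : DecidedIn B' L := by
  obtain ⟨V, h1, h2, h3⟩ := h
  exact ⟨V, h1, fun n => (h2 n).trans (hB n), h3⟩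

/-- `SUBEXP` is the intersection of the classes `DTIME(2 ^ (n ^ (1 / 2 ^ i)))`. -/
theorem subexp_eq : Subexp = DTimes mu := by
  ext L
  constructor
  · intro h i
    obtain ⟨C, hC⟩ := h ((1 : ℝ) / 2 ^ i) (by positivity)
    refine ⟨|C| * 2, hC.mono fun n => ?_⟩
    have h1 : (2 : ℝ) ^ ((n : ℝ) ^ ((1 : ℝ) / 2 ^ i)) ≤ 2 ^ ((mu i n : ℝ) + 1) :=
      Real.rpow_le_rpow_of_exponent_le (by norm_num) (rpow_lt_mu_succ i n)
    rw [Real.rpow_add (by norm_num), Real.rpow_one, Real.rpow_natCast] at h1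
    calc C * 2 ^ ((n : ℝ) ^ ((1 : ℝ) / 2 ^ i)) ≤ |C| * 2 ^ ((n : ℝ) ^ ((1 : ℝ) / 2 ^ i)) :=
          mul_le_mul_of_nonneg_right (le_abs_self C) (by positivity)
      _ ≤ |C| * (2 ^ mu i n * 2) := mul_le_mul_of_nonneg_left h1 (abs_nonneg C)
      _ = |C| * 2 * 2 ^ mu i n := by ring
  · intro h ε hε
    obtain ⟨i, hi⟩ : ∃ i : ℕ, (1 : ℝ) / 2 ^ i ≤ ε := by
      obtain ⟨i, hi⟩ := exists_pow_lt_of_lt_one hε (y := (1 / 2 : ℝ)) (by norm_num)
      refine ⟨i, ?_⟩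
      rw [one_div_pow] at hi
      exact hi.le
    obtain ⟨C, hC⟩ := h i
    refine ⟨|C|, hC.mono fun n => ?_⟩
    have h1 : (mu i n : ℝ) ≤ (n : ℝ) ^ ε := by
      rcases Nat.eq_zero_or_pos n with rfl | hn
      · have h2 : mu i 0 = 0 := Nat.le_zero.1 (mu_le_self i 0)
        rw [h2]
        simp [Real.zero_rpow hε.ne']
      · exact (mu_le_rpow i n).trans (Real.rpow_le_rpow_of_exponent_le (by exact_mod_cast hn) hi)
    have h2 : (2 : ℝ) ^ (mu i n) ≤ 2 ^ ((n : ℝ) ^ ε) := by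
      rw [← Real.rpow_natCast]
      exact Real.rpow_le_rpow_of_exponent_le (by norm_num) h1
    calc C * 2 ^ mu i n ≤ |C| * 2 ^ mu i n :=
          mul_le_mul_of_nonneg_right (le_abs_self C) (by positivity)
      _ ≤ |C| * 2 ^ ((n : ℝ) ^ ε) := mul_le_mul_of_nonneg_left h2 (abs_nonneg C)

end Pool.Agent.W60.SE
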