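import Pool.Agent.H660R2.NX.Univ

/-!
# Timed simulations: Mathlib's stack machines, structured programs and the universal function
-/

namespace Pool.Agent.W60.SE

open Turing Pool.Agent.NPC Pool.Agent.H642R2.TMSim
open Pool.Agent.H660R2.NX
open Function (update)

/-- **Simulation.** A function computed by a Mathlib stack machine is computed by a structured
program, with linear overhead in the number of steps. -/
theorem toRuns {f : List Bool → List Bool}
    (h : TM2ComputableInTime (id : List Bool → List Bool) (id : List Bool → List Bool) f) :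
    ∃ (p : Cmd ℕ) (a : ℕ), ∀ x, Runs p (inp x) (inp (f x)) (a * (h.time x.length + x.length + 1)) := by
  let tm := h.tm
  have := tm.kFin
  have := tm.ΛFin
  have := tm.σFin
  have := tm.Γk₀Fin
  let A : Set (Σ k, tm.Γ k) := (⋃ l, pushes (tm.m l)) ∪ Set.range (fun a => ⟨tm.k₀, a⟩)
  have hA : A.Finite := by
    refine Set.Finite.union (Set.finite_iUnion fun l => pushes_finite _) ?_
    exact Set.finite_range _
  obtain ⟨b, hb, ⟨C⟩⟩ := exists_cod A hA
  obtain ⟨bs, hbs, ⟨D⟩⟩ := exists_cod (Set.univ : Set (tm.Λ × tm.σ)) Set.finite_univ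
  obtain ⟨B, hB⟩ : ∃ B, ∀ l, cst b bs (tm.m l) ≤ B := by
    obtain ⟨B, hB⟩ := (Set.finite_range (fun l => cst b bs (tm.m l))).bddAbove
    exact ⟨B, fun l => hB ⟨l, rfl⟩⟩
  have hm : ∀ l, pushes (tm.m l) ⊆ A := fun l x hx => Or.inl (Set.mem_iUnion.2 ⟨l, hx⟩)
  let prog : Cmd ℕ := Cmd.seq (mv 0 2) (Cmd.seq (inLoop A C tm.k₀ h.inputAlphabet.symm)
    (Cmd.seq (wr 1 (D.code (tm.main, tm.initialState))) (Cmd.seq (Cmd.loop 1 (body A C D tm.m))
      (Cmd.seq (outLoop A C tm.k₁ h.outputAlphabet) (mv 2 0)))))
  let c := 2 * bs + B + 1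
  refine ⟨prog, (b + 8) + c + (4 * b + 20) * ((b + 1) + c + (b + bs + 10)) + (bs + 20),
    fun x => ?_⟩
  obtain ⟨⟨n, hn⟩, hn'⟩ := h.outputsFun x
  have hn1 : (flip bind (TM2.step tm.m))^[n]
      (some (initList tm (List.map h.inputAlphabet.invFun x))) =
      some (haltList tm (List.map h.outputAlphabet.invFun (f x))) := hn
  rw [initList_stk, haltList_stk] at hn1
  have hgood : Good A (one tm.k₀ (List.map h.inputAlphabet.invFun x)) := by
    intro k x hx
    by_cases hk : k = tm.k₀
    · subst hk; exact Or.inr ⟨x, rfl⟩
    · rw [one, Function.update_of_ne hk] at hx; simp at hx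
  obtain ⟨hg', hmain⟩ := main_runs A C D tm.m hb hbs hm B hB n _ _ _ hgood hn1
  -- input
  have r1 : Runs (mv 0 2) (inp x) (update (R A C [] (one tm.k₀ [])) 2 x.reverse)
      (4 * x.length + 1) := by
    refine mv_runs (by decide) x _ _ (by simp [inp]) ?_
    have : one (Γ := tm.Γ) tm.k₀ [] = fun _ => [] := Function.update_eq_self tm.k₀ _
    rw [this, R_empty]
    simp [inp]
  have r2 := inLoop_runs A C tm.k₀ h.inputAlphabet.symm x.reverse []
  rw [List.append_nil, List.map_reverse, List.reverse_reverse] at r2
  have r3 : Runs (wr 1 (D.code (tm.main, tm.initialState)))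
      (R A C [] (one tm.k₀ (List.map h.inputAlphabet.symm x)))
      (R A C (D.code (tm.main, tm.initialState))
        (one tm.k₀ (List.map h.inputAlphabet.symm x))) (bs + 1) := by
    refine (wr_runs _ _).conv rfl ?_ (by rw [D.len])
    rw [R_one, List.append_nil, R_update_one]
  have r5 := outLoop_runs A C hb tm.k₁ h.outputAlphabet
    (List.map h.outputAlphabet.invFun (f x)) [] (by
      intro x hx
      have := hg' tm.k₁ x
      rw [one, Function.update_self] at this
      exact this hx)
  have e5 : update (R A C [] (one tm.k₁ (List.map h.outputAlphabet.invFun (f x)))) 2 [] =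
      R A C [] (one tm.k₁ (List.map h.outputAlphabet.invFun (f x))) := by
    have := Function.update_eq_self 2
      (R A C [] (one tm.k₁ (List.map h.outputAlphabet.invFun (f x))))
    rwa [R_two] at this
  rw [e5, List.append_nil, List.map_map] at r5
  have e6 : (⇑h.outputAlphabet ∘ h.outputAlphabet.invFun) = id := by
    funext x; exact h.outputAlphabet.apply_symm_apply x
  rw [e6, List.map_id, List.length_map] at r5
  have r6 : Runs (mv 2 0) (update (fun _ => []) 2 (f x).reverse) (inp (f x))
      (4 * (f x).length + 1) := by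
    refine (mv_runs (by decide) (f x).reverse _ _ (by simp) ?_).mono (by simp)
    simp [inp]
  have hall := r1.seq (r2.seq (r3.seq (hmain.seq (r5.seq r6))))
  -- length of the output
  have hlen : (f x).length ≤ (b + 1) * x.length + n * c + (b + bs + 10) := by
    obtain ⟨t, ht, hr⟩ := hmain
    have := hr.length_le (idx tm.k₁)
    rw [R_idx, R_idx] at this
    have e7 : ∀ l : List (tm.Γ tm.k₁), (encS A C tm.k₁ l).length = b * l.length := by
      intro l
      induction l with
      | nil => simp [encS]
      | cons x l ih =>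
        have : encS A C tm.k₁ (x :: l) = C.code ⟨tm.k₁, x⟩ ++ encS A C tm.k₁ l := by
          simp [encS]
        rw [this, List.length_append, C.len, ih, List.length_cons]; ring
    rw [e7, e7] at this
    have e8 : (one tm.k₁ (List.map h.outputAlphabet.invFun (f x)) tm.k₁).length =
        (f x).length := by
      rw [one, Function.update_self, List.length_map]
    have e9 : (one tm.k₀ (List.map h.inputAlphabet.invFun x) tm.k₁).length ≤
        x.length := by
      unfold one
      by_cases hk : tm.k₁ = tm.k₀
      · have : (update (fun _ => []) tm.k₀ (List.map h.inputAlphabet.invFun x) tm.k₀ :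
          List (tm.Γ tm.k₀)).length ≤ x.length := by
          rw [Function.update_self, List.length_map]
        have key : ∀ k, k = tm.k₀ → (update (fun _ => []) tm.k₀
          (List.map h.inputAlphabet.invFun x) k : List (tm.Γ k)).length ≤
            x.length := by
          intro k hk; subst hk; exact this
        exact key _ hk
      · rw [Function.update_of_ne hk]; simp
    have e10 : (one tm.k₁ (List.map h.outputAlphabet.invFun (f x)) tm.k₁).length ≤
        b * (one tm.k₁ (List.map h.outputAlphabet.invFun (f x)) tm.k₁).length :=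
      Nat.le_mul_of_pos_left _ hb
    have e11 : b * (one tm.k₀ (List.map h.inputAlphabet.invFun x) tm.k₁).length ≤
        b * x.length := Nat.mul_le_mul_left _ e9
    have e12 : t ≤ n * c + 1 := ht
    rw [e8] at e10
    simp only at this
    nlinarith [this, e10, e11, e12]
  have hn2 : n ≤ h.time x.length := hn'
  refine hall.mono ?_
  set Tm := h.time x.length with hTm
  set l := x.length with hl
  have h1 : n * c ≤ c * Tm := by
    rw [mul_comm]; exact Nat.mul_le_mul_left _ hn2
  have h2 : (f x).length ≤ (b + 1) * l + c * Tm + (b + bs + 10) := by omega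
  have h2' : (f x).length ≤ ((b + 1) + c + (b + bs + 10)) * (Tm + l + 1) := by
    refine h2.trans ?_
    nlinarith [Nat.zero_le (b * Tm), Nat.zero_le (c * l), Nat.zero_le (bs * l),
      Nat.zero_le (bs * Tm), Nat.zero_le (b * l)]
  have h3 : (2 * b + 2) * (f x).length + 4 * (f x).length ≤
      (4 * b + 20) * ((b + 1) + c + (b + bs + 10)) * (Tm + l + 1) := by
    calc (2 * b + 2) * (f x).length + 4 * (f x).length
        = (2 * b + 6) * (f x).length := by ring
      _ ≤ (4 * b + 20) * (f x).length := Nat.mul_le_mul_right _ (by omega)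
      _ ≤ (4 * b + 20) * (((b + 1) + c + (b + bs + 10)) * (Tm + l + 1)) :=
          Nat.mul_le_mul_left _ h2'
      _ = _ := by ring
  have h4 : n * (2 * bs + B + 1) = n * c := rfl
  rw [List.length_reverse]
  have h5 : (b + 4) * l + 4 * l = (b + 8) * l := by ring
  have h6 : (b + 8) * l ≤ (b + 8) * (Tm + l + 1) := Nat.mul_le_mul_left _ (by omega)
  have h7 : c * Tm ≤ c * (Tm + l + 1) := Nat.mul_le_mul_left _ (by omega)
  have h8 : bs + 20 ≤ (bs + 20) * (Tm + l + 1) := Nat.le_mul_of_pos_right _ (by omega)
  have h9 : ((b + 8) + c + (4 * b + 20) * ((b + 1) + c + (b + bs + 10)) + (bs + 20)) *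
      (Tm + l + 1) = (b + 8) * (Tm + l + 1) + c * (Tm + l + 1) +
      (4 * b + 20) * ((b + 1) + c + (b + bs + 10)) * (Tm + l + 1) +
      (bs + 20) * (Tm + l + 1) := by ring
  rw [h4, h9]
  linarith [h1, h3, h5, h6, h7, h8]

/-- The universal function simulates structured programs with linear overhead. -/
theorem U_of_runs (p : Cmd ℕ) : ∃ e : T × List Unit, ∀ (x y : List Bool) (n t : ℕ),
    Runs p (inp x) (inp y) n → 2 * n ≤ t → U e x t = some y := by
  refine ⟨(cenc p, List.replicate p.bd ()), fun x y n t h ht => ?_⟩
  obtain ⟨t₀, ht₀, hr⟩ := h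
  have hrep : Rep (x :: (List.replicate p.bd ()).map (fun _ => ([] : List Bool)))
      (inp x : ℕ → List Bool) := by
    intro i
    cases i with
    | zero => simp [inp]
    | succ i =>
      rw [List.getD_cons_succ]
      simp only [inp, List.map_replicate]
      rw [Function.update_of_ne (by omega)]
      rw [List.getD_eq_getElem?_getD, List.getElem?_replicate]
      split_ifs <;> rfl
  obtain ⟨n', s', hn, _, hs', he⟩ := sim hr [] _ (by simp) hrep
  have h1 : U (cenc p, List.replicate p.bd ()) x n' = some y := by
    unfold U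
    simp only [he, if_true]
    have := hs' 0
    rw [this]
    simp [inp]
  exact U_mono (by omega) h1

/-- The universal function simulates Mathlib's stack machines with linear overhead. -/
theorem U_time {f : List Bool → List Bool}
    (h : TM2ComputableInTime (id : List Bool → List Bool) (id : List Bool → List Bool) f) :
    ∃ (e : T × List Unit) (a : ℕ), ∀ (x : List Bool) (t : ℕ),
      a * (h.time x.length + x.length + 1) ≤ t → U e x t = some (f x) := by
  obtain ⟨p, a, hp⟩ := toRuns h
  obtain ⟨e, he⟩ := U_of_runs p
  refine ⟨e, 2 * a, fun x t ht => he x (f x) _ t (hp x) ?_⟩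
  rw [← mul_assoc]
  exact ht

/-- A structured program with a time bound gives a machine with this time bound. -/
theorem ofRuns {f : List Bool → List Bool} (p : Cmd ℕ) (B : ℕ → ℕ)
    (h : ∀ x, Runs p (inp x) (inp (f x)) (B x.length)) :
    ∃ h : TM2ComputableInTime (id : List Bool → List Bool) (id : List Bool → List Bool) f,
      ∀ n, h.time n = B n + 1 := by
  have key : ∀ x : List Bool, ∃ t, t ≤ B x.length + 1 ∧
      Nonempty (TM2OutputsInTime (p.map (Fin.ofNat (p.bd + 1))).toTM x (some (f x)) t) := by
    intro x
    obtain ⟨t, ht, hr⟩ := h x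
    have h1 := hr.restrict (n := p.bd) (by omega)
    refine ⟨t + 1, by simpa using ht, toTM_outputs ?_⟩
    convert! h1 using 1
    · funext i
      by_cases hi : i = 0
      · subst hi; simp [inp]
      · have : (i : ℕ) ≠ 0 := fun h => hi (Fin.ext h)
        simp [inp, hi, this]
    · funext i
      by_cases hi : i = 0
      · subst hi; simp [inp]
      · have : (i : ℕ) ≠ 0 := fun h => hi (Fin.ext h)
        simp [inp, hi, this]
  refine ⟨{ tm := (p.map (Fin.ofNat (p.bd + 1))).toTM
            inputAlphabet := Equiv.refl Bool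
            outputAlphabet := Equiv.refl Bool
            time := fun n => B n + 1
            outputsFun := ?_ }, fun n => rfl⟩
  intro x
  have hx := key x
  have ht := hx.choose_spec.1
  have hm := hx.choose_spec.2.some
  exact outputs_conv (List.map_id x).symm (List.map_id (f x)).symm ht hm

end Pool.Agent.W60.SE
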